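import Pool.Agent.H22Z.IdC.Cond

set_option autoImplicit false

universe u

open Cardinal Set

namespace Pool.Agent.H22Z.IdC

section
variable {Ω Ω' : Type u}

def dom (σ : Ω ≃. Ω') : Set Ω := {x | ∃ x', σ x = some x'}

def act (σ : Ω ≃. Ω') (y : Pt Ω) : Pt Ω' := (y.1.bind σ, y.2.bind σ)

theorem bind_bind (σ : Ω ≃. Ω') (o : Option Ω) : (o.bind σ).bind σ.symm = cut (dom σ) o := by
  cases o with
  | none => rfl
  | some x =>
    by_cases hx : x ∈ dom σ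
    · rw [cut_of_In (In_some.2 hx)]
      obtain ⟨x', hx'⟩ := hx
      simp only [Option.bind_some, hx']
      exact σ.eq_some_iff.2 hx'
    · rw [cut_of_not_In (fun h => hx (In_some.1 h))]
      have : σ x = none := by
        rcases h : σ x with _ | x'
        · rfl
        · exact absurd ⟨x', h⟩ hx
      simp [this]

theorem In_bind (σ : Ω ≃. Ω') (o : Option Ω') : In (dom σ) (o.bind σ.symm) ↔ In (dom σ.symm) o := by
  cases o with
  | none => exact ⟨fun h => absurd h (not_In_none _), fun h => absurd h (not_In_none _)⟩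
  | some x' =>
    rw [In_some]
    constructor
    · rintro ⟨x, _, h⟩
      exact ⟨x, h⟩
    · rintro ⟨x, h⟩
      exact ⟨x, ⟨x', σ.eq_some_iff.1 h⟩, h⟩

theorem cut_bind (σ : Ω ≃. Ω') (o : Option Ω) : (cut (dom σ) o).bind σ = o.bind σ := by
  by_cases h : In (dom σ) o
  · rw [cut_of_In h]
  · rw [cut_of_not_In h]
    cases o with
    | none => rfl
    | some x =>
      rcases h' : σ x with _ | x'
      · simp [h']
      · exact absurd (In_some.2 (show x ∈ dom σ from ⟨x', h'⟩)) h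

theorem act_act (σ : Ω ≃. Ω') (y : Pt Ω) : act σ.symm (act σ y) = res (dom σ) y := by
  simp only [act, res, bind_bind]

theorem Supp.pull (σ : Ω ≃. Ω') {F : Fn Ω} (h : Supp (dom σ) F) :
    Supp (dom σ.symm) (fun y => F (act σ.symm y)) := by
  obtain ⟨⟨C, hC⟩, h⟩ := h
  refine ⟨⟨C, fun y p => hC _ p⟩, fun y => ⟨?_, ?_⟩⟩
  · simp only [act, res, cut_bind]
  · have := (h (act σ.symm y)).2
    simp only [act, In_bind] at this
    exact this

theorem Supp.pull_pull (σ : Ω ≃. Ω') {F : Fn Ω} (h : Supp (dom σ) F) :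
    (fun y => F (act σ.symm (act σ y))) = F := by
  funext y
  rw [act_act, ← (h.2 y).1]

theorem LE.comp {F G : Fn Ω} (h : LE F G) (f : Pt Ω' → Pt Ω) :
    LE (fun y => F (f y)) (fun y => G (f y)) := by
  obtain ⟨n, hn⟩ := h
  exact ⟨n, fun y p => hn _ p⟩

theorem LE_pull (σ : Ω ≃. Ω') {F G : Fn Ω} (hF : Supp (dom σ) F) (hG : Supp (dom σ) G) :
    LE F G ↔ LE (fun y => F (act σ.symm y)) (fun y => G (act σ.symm y)) := by
  refine ⟨fun h => h.comp _, fun h => ?_⟩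
  have := h.comp (act σ)
  rwa [hF.pull_pull, hG.pull_pull] at this

theorem cut_ext {σ τ : Ω ≃. Ω'} (h : ∀ a b, σ a = some b → τ a = some b) (o : Option Ω') :
    cut (dom σ) (o.bind τ.symm) = o.bind σ.symm := by
  cases o with
  | none => rfl
  | some x' =>
    simp only [Option.bind_some]
    rcases h1 : σ.symm x' with _ | x
    · apply cut_of_not_In
      rintro ⟨x, ⟨x'', hx⟩, h2⟩
      have h3 := τ.eq_some_iff.1 h2
      rw [h _ _ hx] at h3
      cases h3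
      rw [σ.eq_some_iff.2 hx] at h1
      cases h1
    · have h2 := σ.eq_some_iff.1 h1
      rw [τ.eq_some_iff.2 (h _ _ h2)]
      exact cut_of_In (In_some.2 ⟨x', h2⟩)

open Classical in
noncomputable def ofInj (S : Set Ω) (f : Ω → Ω') (hf : InjOn f S) : Ω ≃. Ω' where
  toFun x := if x ∈ S then some (f x) else none
  invFun x' := if h : ∃ x ∈ S, f x = x' then some h.choose else none
  inv a b := by
    constructor
    · intro h
      split_ifs at h with h1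
      cases h
      rw [if_pos h1.choose_spec.1, h1.choose_spec.2]
    · intro h
      split_ifs at h with h1
      cases h
      have h2 : ∃ x ∈ S, f x = f a := ⟨a, h1, rfl⟩
      rw [dif_pos h2, hf h2.choose_spec.1 h1 h2.choose_spec.2]

theorem ofInj_eq {S : Set Ω} {f : Ω → Ω'} (hf : InjOn f S) {a : Ω} {b : Ω'} :
    ofInj S f hf a = some b ↔ a ∈ S ∧ f a = b := by
  classical
  show (if a ∈ S then some (f a) else none) = some b ↔ _
  by_cases h : a ∈ S <;> simp [h]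

variable {κ : Cardinal.{u}} [hκ : Fact (ℵ₀ ≤ κ)]

theorem exists_ext (hΩ : κ ≤ #Ω') (σ : Ω ≃. Ω') (h1 : #(dom σ) < κ) (h2 : #(dom σ.symm) < κ)
    (T : Set Ω) (hT : #T < κ) : ∃ τ : Ω ≃. Ω', #(dom τ) < κ ∧ #(dom τ.symm) < κ ∧
      (∀ a b, σ a = some b → τ a = some b) ∧ T ⊆ dom τ := by
  classical
  have hc : #T ≤ #((dom σ.symm)ᶜ : Set Ω') := by
    by_contra hlt
    have h3 := (not_le.1 hlt).trans hT
    have h4 := add_lt_of_lt hκ.out h2 h3
    rw [mk_sum_compl] at h4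
    exact absurd hΩ (not_le.2 h4)
  obtain ⟨j⟩ := (Cardinal.le_def _ _).1 hc
  obtain ⟨z⟩ : Nonempty Ω' := mk_ne_zero_iff.1 (lt_of_lt_of_le aleph0_pos (hκ.out.trans hΩ)).ne'
  let f : Ω → Ω' := fun x => if h : x ∈ dom σ then h.choose else
    if h' : x ∈ T then (j ⟨x, h'⟩ : Ω') else z
  have f1 : ∀ a b, σ a = some b → f a = b := by
    intro a b hab
    have h : a ∈ dom σ := ⟨b, hab⟩
    simp only [f, dif_pos h]
    exact Option.some.inj (h.choose_spec.symm.trans hab)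
  have f2 : ∀ a (_ : a ∉ dom σ) (h' : a ∈ T), f a = (j ⟨a, h'⟩ : Ω') := by
    intro a h h'
    simp only [f, dif_neg h, dif_pos h']
  have hinj : InjOn f (dom σ ∪ T) := by
    have mixed : ∀ a ∈ dom σ, ∀ b, b ∉ dom σ → b ∈ T → f a ≠ f b := by
      rintro a ⟨a', ha⟩ b hb hb' h
      rw [f1 a a' ha, f2 b hb hb'] at h
      have := (j ⟨b, hb'⟩).2
      rw [← h] at this
      exact this ⟨a, σ.eq_some_iff.2 ha⟩
    intro a ha b hb h
    by_cases a1 : a ∈ dom σ <;> by_cases b1 : b ∈ dom σ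
    · obtain ⟨a', ha'⟩ := a1
      obtain ⟨b', hb'⟩ := b1
      rw [f1 a a' ha', f1 b b' hb'] at h
      subst h
      have := (σ.eq_some_iff.2 ha').symm.trans (σ.eq_some_iff.2 hb')
      exact Option.some.inj this
    · exact absurd h (mixed a a1 b b1 (hb.resolve_left b1))
    · exact absurd h.symm (mixed b b1 a a1 (ha.resolve_left a1))
    · rw [f2 a a1 (ha.resolve_left a1), f2 b b1 (hb.resolve_left b1)] at h
      exact congrArg Subtype.val (j.injective (Subtype.ext h))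
  have hs := union_small h1 hT
  refine ⟨ofInj _ f hinj, ?_, ?_, ?_, ?_⟩
  · refine lt_of_le_of_lt (mk_le_mk_of_subset ?_) hs
    rintro a ⟨b, hb⟩
    exact ((ofInj_eq hinj).1 hb).1
  · refine lt_of_le_of_lt ((mk_le_mk_of_subset (t := f '' (dom σ ∪ T)) ?_).trans mk_image_le) hs
    rintro b ⟨a, ha⟩
    exact ⟨a, (ofInj_eq hinj).1 ((ofInj _ f hinj).eq_some_iff.1 ha)⟩
  · intro a b hab
    exact (ofInj_eq hinj).2 ⟨Or.inl ⟨b, hab⟩, f1 a b hab⟩
  · intro a ha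
    exact ⟨f a, (ofInj_eq hinj).2 ⟨Or.inr ha, rfl⟩⟩

def Rel (σ : Ω ≃. Ω') (d : DD κ Ω) (d' : DD κ Ω') : Prop :=
  ∃ F, Supp (dom σ) F ∧ d.1 = cls F ∧ d'.1 = cls (fun y => F (act σ.symm y))

omit hκ in
theorem Rel.symm {σ : Ω ≃. Ω'} {d : DD κ Ω} {d' : DD κ Ω'} (h : Rel σ d d') : Rel σ.symm d' d := by
  obtain ⟨F, h1, h2, h3⟩ := h
  refine ⟨_, h1.pull, h3, ?_⟩
  rw [h2]
  exact congrArg cls (h1.pull_pull σ).symm

omit hκ in
theorem Rel.ext {σ τ : Ω ≃. Ω'} (h : ∀ a b, σ a = some b → τ a = some b) {d : DD κ Ω}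
    {d' : DD κ Ω'} (hr : Rel σ d d') : Rel τ d d' := by
  obtain ⟨F, h1, h2, h3⟩ := hr
  have hs : dom σ ⊆ dom τ := fun a ⟨b, hb⟩ => ⟨b, h a b hb⟩
  obtain ⟨V, v1, v2, v3⟩ := h1.lift hs
  refine ⟨_, v3, h2.trans (cls_mul V v1 v2 F).symm, ?_⟩
  rw [h3]
  have := cls_mul (fun y => V (act τ.symm y)) (fun y p => v1 _ p) (fun y p => v2 _ p)
    (fun y => F (act τ.symm y))
  rw [this]
  congr 1
  funext y
  rw [(h1.2 (act τ.symm y)).1]
  simp only [act, res, cut_ext h]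

theorem forth (hreg : κ.IsRegular) (hΩ : κ ≤ #Ω') (σ : Ω ≃. Ω') (h1 : #(dom σ) < κ)
    (h2 : #(dom σ.symm) < κ) (β : Type u) (hβ : #β < κ) (w : β → DD κ Ω) :
    ∃ τ : Ω ≃. Ω', #(dom τ) < κ ∧ #(dom τ.symm) < κ ∧
      (∀ a b, σ a = some b → τ a = some b) ∧ ∃ w' : β → DD κ Ω', ∀ b, Rel τ (w b) (w' b) := by
  choose S F hS hF hw using fun b => (w b).2
  have hT : #(⋃ b, S b) < κ := (card_iUnion_lt_iff_forall_of_isRegular hreg hβ).2 hS
  obtain ⟨τ, t1, t2, t3, t4⟩ := exists_ext hΩ σ h1 h2 _ hT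
  refine ⟨τ, t1, t2, t3, ?_⟩
  have : ∀ b, ∃ d' : DD κ Ω', Rel τ (w b) d' := by
    intro b
    obtain ⟨F', g1, g2⟩ := (hF b).lift' ((subset_iUnion S b).trans t4)
    exact ⟨⟨_, _, _, t2, g1.pull, rfl⟩, F', g1, (hw b).trans g2, rfl⟩
  choose w' hw' using this
  exact ⟨w', hw'⟩

theorem equiv_sat (hreg : κ.IsRegular) (hΩ : κ ≤ #Ω) (hΩ' : κ ≤ #Ω') (φ : LForm.{u} PEmpty)
    (hφ : φ.qb < κ) : φ.Sat (DD κ Ω) PEmpty.elim ↔ φ.Sat (DD κ Ω') PEmpty.elim := by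
  have h0 : ∀ {α β : Type u}, #(dom (⊥ : α ≃. β)) < κ := by
    intro α β
    have : dom (⊥ : α ≃. β) = ∅ := by
      ext x; simp [dom]
    rw [this]; simpa using hreg.pos
  refine karp κ (J := {σ : Ω ≃. Ω' // #(dom σ) < κ ∧ #(dom σ.symm) < κ})
    (fun j => Rel j.1) ?_ ?_ ?_ ?_ ?_ φ hφ ⟨⊥, h0, by rw [PEquiv.symm_bot]; exact h0⟩ _ _
    (fun x => x.elim)
  · rintro j a a' b b' ⟨F, f1, f2, f3⟩ ⟨G, g1, g2, g3⟩
    exact ⟨_, f1.abs.max g1.abs, DD.sup_val f2 g2, DD.sup_val f3 g3⟩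
  · rintro j a a' b b' ⟨F, f1, f2, f3⟩ ⟨G, g1, g2, g3⟩
    exact ⟨_, f1.abs.min g1.abs, DD.inf_val f2 g2, DD.inf_val f3 g3⟩
  · rintro j a a' b b' ⟨F, f1, f2, f3⟩ ⟨G, g1, g2, g3⟩
    rw [le_antisymm_iff, le_antisymm_iff, DD.le_iff f2 g2, DD.le_iff g2 f2, DD.le_iff f3 g3,
      DD.le_iff g3 f3, LE_pull j.1 f1 g1, LE_pull j.1 g1 f1]
  · intro j β hβ w
    obtain ⟨τ, t1, t2, t3, w', hw⟩ := forth hreg hΩ' j.1 j.2.1 j.2.2 β hβ w
    exact ⟨⟨τ, t1, t2⟩, fun a a' h => h.ext t3, w', hw⟩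
  · intro j β hβ w'
    obtain ⟨τ, t1, t2, t3, w, hw⟩ := forth hreg hΩ j.1.symm j.2.2 j.2.1 β hβ w'
    refine ⟨⟨τ.symm, t2, t1⟩, fun a a' h => (h.symm.ext t3).symm, w, fun b => (hw b).symm⟩

end

end Pool.Agent.H22Z.IdC
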