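import Pool.Agent.H22Z.IdC.Defs

set_option autoImplicit false

universe u

open Cardinal

namespace Pool.Agent.H22Z.IdC

/-- supremum of the sizes of the quantifier blocks -/
noncomputable def LForm.qb : {α : Type u} → LForm α → Cardinal.{u}
  | _, .eq _ _ => 0
  | _, .not φ => φ.qb
  | _, .conj _ f => ⨆ i, (f i).qb
  | _, .disj _ f => ⨆ i, (f i).qb
  | _, .all β φ => max #β φ.qb
  | _, .ex β φ => max #β φ.qb

theorem karp {D D' : Type u} [Lattice D] [Lattice D'] (κ : Cardinal.{u}) {J : Type*}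
    (R : J → D → D' → Prop)
    (hsup : ∀ j a a' b b', R j a a' → R j b b' → R j (a ⊔ b) (a' ⊔ b'))
    (hinf : ∀ j a a' b b', R j a a' → R j b b' → R j (a ⊓ b) (a' ⊓ b'))
    (heq : ∀ j a a' b b', R j a a' → R j b b' → (a = b ↔ a' = b'))
    (hforth : ∀ j (β : Type u), #β < κ → ∀ w : β → D, ∃ j', (∀ a a', R j a a' → R j' a a') ∧
      ∃ w' : β → D', ∀ b, R j' (w b) (w' b))
    (hback : ∀ j (β : Type u), #β < κ → ∀ w' : β → D', ∃ j', (∀ a a', R j a a' → R j' a a') ∧
      ∃ w : β → D, ∀ b, R j' (w b) (w' b))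
    {α : Type u} (φ : LForm α) : φ.qb < κ → ∀ j (v : α → D) (v' : α → D'),
      (∀ x, R j (v x) (v' x)) → (φ.Sat D v ↔ φ.Sat D' v') := by
  have hterm : ∀ {α : Type u} (t : LTerm α) j (v : α → D) (v' : α → D'),
      (∀ x, R j (v x) (v' x)) → R j (t.eval v) (t.eval v') := by
    intro α t j v v' h
    induction t with
    | var x => exact h x
    | sup s t ihs iht => exact hsup j _ _ _ _ ihs iht
    | inf s t ihs iht => exact hinf j _ _ _ _ ihs iht
  have helim : ∀ {α β : Type u} j j' (v : α → D) (v' : α → D') (w : β → D) (w' : β → D'),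
      (∀ a a', R j a a' → R j' a a') → (∀ x, R j (v x) (v' x)) → (∀ b, R j' (w b) (w' b)) →
      ∀ x, R j' (Sum.elim v w x) (Sum.elim v' w' x) := by
    intro α β j j' v v' w w' h1 h2 h3 x
    rcases x with x | x
    · exact h1 _ _ (h2 x)
    · exact h3 x
  induction φ with
  | eq s t =>
    intro _ j v v' h
    exact heq j _ _ _ _ (hterm s j v v' h) (hterm t j v v' h)
  | not φ ih =>
    intro hq j v v' h
    exact not_congr (ih hq j v v' h)
  | conj ι f ih =>
    intro hq j v v' h
    exact forall_congr' fun i =>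
      ih i (lt_of_le_of_lt (le_ciSup (f := fun i => (f i).qb) Cardinal.bddAbove_of_small i) hq)
        j v v' h
  | disj ι f ih =>
    intro hq j v v' h
    exact exists_congr fun i =>
      ih i (lt_of_le_of_lt (le_ciSup (f := fun i => (f i).qb) Cardinal.bddAbove_of_small i) hq)
        j v v' h
  | all β φ ih =>
    intro hq j v v' h
    have h1 : #β < κ := lt_of_le_of_lt (le_max_left _ _) hq
    have h2 : φ.qb < κ := lt_of_le_of_lt (le_max_right _ _) hq
    constructor
    · intro H w'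
      obtain ⟨j', hj, w, hw⟩ := hback j β h1 w'
      exact (ih h2 j' _ _ (helim j j' v v' w w' hj h hw)).1 (H w)
    · intro H w
      obtain ⟨j', hj, w', hw⟩ := hforth j β h1 w
      exact (ih h2 j' _ _ (helim j j' v v' w w' hj h hw)).2 (H w')
  | ex β φ ih =>
    intro hq j v v' h
    have h1 : #β < κ := lt_of_le_of_lt (le_max_left _ _) hq
    have h2 : φ.qb < κ := lt_of_le_of_lt (le_max_right _ _) hq
    constructor
    · rintro ⟨w, H⟩
      obtain ⟨j', hj, w', hw⟩ := hforth j β h1 w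
      exact ⟨w', (ih h2 j' _ _ (helim j j' v v' w w' hj h hw)).1 H⟩
    · rintro ⟨w', H⟩
      obtain ⟨j', hj, w, hw⟩ := hback j β h1 w'
      exact ⟨w, (ih h2 j' _ _ (helim j j' v v' w w' hj h hw)).2 H⟩

end Pool.Agent.H22Z.IdC
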