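import Pool.Agent.H22Z.IdC.Fiber
import Pool.Agent.H22Z.IdC.Karp

set_option autoImplicit false

universe u

open Cardinal Set

namespace Pool.Agent.H22Z.IdC

abbrev Pt (Ω : Type u) := Option Ω × Option Ω
abbrev Fn (Ω : Type u) := Pt Ω → Y → ℝ

section
variable {Ω : Type u}

open Classical in
noncomputable def cut (S : Set Ω) (o : Option Ω) : Option Ω :=
  o.bind fun x => if x ∈ S then some x else none

noncomputable def res (S : Set Ω) (y : Pt Ω) : Pt Ω := (cut S y.1, cut S y.2)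

def In (S : Set Ω) (o : Option Ω) : Prop := ∃ x ∈ S, o = some x

theorem cut_of_In {S : Set Ω} {o : Option Ω} (h : In S o) : cut S o = o := by
  obtain ⟨x, hx, rfl⟩ := h
  simp [cut, hx]

theorem cut_of_not_In {S : Set Ω} {o : Option Ω} (h : ¬ In S o) : cut S o = none := by
  cases o with
  | none => rfl
  | some x =>
    have : x ∉ S := fun hx => h ⟨x, hx, rfl⟩
    simp [cut, this]

theorem not_In_none (S : Set Ω) : ¬ In S none := by rintro ⟨x, _, h⟩; cases h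

theorem In_some {S : Set Ω} {x : Ω} : In S (some x) ↔ x ∈ S :=
  ⟨fun ⟨y, hy, h⟩ => by cases h; exact hy, fun h => ⟨x, h, rfl⟩⟩

theorem In.mono {S S' : Set Ω} (h : S ⊆ S') {o : Option Ω} (ho : In S o) : In S' o := by
  obtain ⟨x, hx, e⟩ := ho
  exact ⟨x, h hx, e⟩

theorem In_cut {S S' : Set Ω} (h : S ⊆ S') (o : Option Ω) : In S (cut S' o) ↔ In S o := by
  by_cases h1 : In S' o
  · rw [cut_of_In h1]
  · rw [cut_of_not_In h1]
    exact ⟨fun h2 => absurd h2 (not_In_none S), fun h2 => absurd (h2.mono h) h1⟩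

theorem cut_cut {S S' : Set Ω} (h : S ⊆ S') (o : Option Ω) : cut S (cut S' o) = cut S o := by
  by_cases h1 : In S' o
  · rw [cut_of_In h1]
  · rw [cut_of_not_In h1, cut_of_not_In (fun h2 => h1 (h2.mono h))]; rfl

theorem res_res {S S' : Set Ω} (h : S ⊆ S') (y : Pt Ω) : res S (res S' y) = res S y := by
  simp only [res, cut_cut h]

theorem res_of_In {S : Set Ω} {y : Pt Ω} (h1 : In S y.1) (h2 : In S y.2) : res S y = y := by
  simp only [res, cut_of_In h1, cut_of_In h2]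

def Supp (S : Set Ω) (F : Fn Ω) : Prop :=
  (∃ C : ℝ, ∀ y p, |F y p| ≤ C) ∧ ∀ y, F y = F (res S y) ∧ A (In S y.1) (In S y.2) (F y)

theorem Supp_const (S : Set Ω) (a : ℝ) : Supp S (fun _ _ => a) :=
  ⟨⟨|a|, fun _ _ => le_rfl⟩, fun _ => ⟨rfl, A_const _ _ a⟩⟩

theorem Supp.neg {S : Set Ω} {F : Fn Ω} (h : Supp S F) : Supp S (fun y p => - F y p) := by
  obtain ⟨⟨C, hC⟩, h⟩ := h
  refine ⟨⟨C, fun y p => by rw [abs_neg]; exact hC y p⟩, fun y => ⟨?_, (h y).2.neg⟩⟩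
  funext p; show - F y p = - F (res S y) p; rw [(h y).1]

theorem Supp.add {S : Set Ω} {F G : Fn Ω} (h : Supp S F) (g : Supp S G) :
    Supp S (fun y p => F y p + G y p) := by
  obtain ⟨⟨C, hC⟩, h⟩ := h
  obtain ⟨⟨D, hD⟩, g⟩ := g
  refine ⟨⟨C + D, fun y p => (abs_add_le _ _).trans (add_le_add (hC y p) (hD y p))⟩,
    fun y => ⟨?_, (h y).2.add (g y).2⟩⟩
  funext p; show F y p + G y p = F (res S y) p + G (res S y) p; rw [(h y).1, (g y).1]

theorem Supp.max {S : Set Ω} {F G : Fn Ω} (h : Supp S F) (g : Supp S G) :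
    Supp S (fun y p => max (F y p) (G y p)) := by
  obtain ⟨⟨C, hC⟩, h⟩ := h
  obtain ⟨⟨D, hD⟩, g⟩ := g
  refine ⟨⟨Max.max C D, fun y p => (abs_max_le_max_abs_abs).trans (max_le_max (hC y p) (hD y p))⟩,
    fun y => ⟨?_, (h y).2.max (g y).2⟩⟩
  funext p
  show Max.max (F y p) (G y p) = Max.max (F (res S y) p) (G (res S y) p)
  rw [(h y).1, (g y).1]

theorem Supp.abs {S : Set Ω} {F : Fn Ω} (h : Supp S F) : Supp S (fun y p => |F y p|) :=
  h.max h.neg

theorem Supp.min {S : Set Ω} {F G : Fn Ω} (h : Supp S F) (g : Supp S G) :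
    Supp S (fun y p => min (F y p) (G y p)) := by
  have := (h.neg.max g.neg).neg
  convert this using 3
  rw [max_neg_neg, neg_neg]

open Classical in
theorem Supp.up {S S' : Set Ω} (hS : S ⊆ S') (b : Pt Ω → Prop)
    (hb1 : ∀ y, In S' y.1 → In S' y.2 → In S y.1 → ¬ b y)
    (hb2 : ∀ y, In S' y.1 → In S' y.2 → ¬ In S y.1 → In S y.2 → b y) {F : Fn Ω} (h : Supp S F) :
    Supp S' (fun y p => (if In S' y.1 ∧ In S' y.2 ∧ b y then wt p else 1) * F y p) := by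
  obtain ⟨⟨C, hC⟩, h⟩ := h
  refine ⟨⟨2 * C, fun y p => ?_⟩, fun y => ⟨?_, ?_⟩⟩
  · rw [abs_mul]
    refine mul_le_mul ?_ (hC y p) (abs_nonneg _) zero_le_two
    split_ifs
    · rw [abs_of_pos (wt_pos p)]; exact wt_le_two p
    · simp
  · by_cases h1 : In S' y.1 ∧ In S' y.2
    · rw [res_of_In h1.1 h1.2]
    · funext p
      have h2 : ¬ (In S' y.1 ∧ In S' y.2 ∧ b y) := fun h => h1 ⟨h.1, h.2.1⟩
      have h3 : ¬ (In S' (res S' y).1 ∧ In S' (res S' y).2 ∧ b (res S' y)) := fun h =>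
        h1 ⟨(In_cut subset_rfl _).1 h.1, (In_cut subset_rfl _).1 h.2.1⟩
      simp only [if_neg h2, if_neg h3]
      rw [(h y).1, (h (res S' y)).1, res_res hS]
  · exact A.up (fun a => a.mono hS) (fun a => a.mono hS) (hb1 y) (hb2 y) (h y).2

def LE (F G : Fn Ω) : Prop := ∃ n : ℕ, ∀ y p, |F y p| ≤ n * |G y p|

theorem LE.refl (F : Fn Ω) : LE F F := ⟨1, fun _ _ => by simp⟩

theorem LE.trans {F G H : Fn Ω} (h : LE F G) (g : LE G H) : LE F H := by
  obtain ⟨n, hn⟩ := h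
  obtain ⟨m, hm⟩ := g
  refine ⟨n * m, fun y p => (hn y p).trans ?_⟩
  push_cast
  rw [mul_assoc]
  exact mul_le_mul_of_nonneg_left (hm y p) n.cast_nonneg

def cls (F : Fn Ω) : Set (Fn Ω) := {G | LE G F}

theorem cls_subset {F G : Fn Ω} : cls F ⊆ cls G ↔ LE F G :=
  ⟨fun h => h (LE.refl F), fun h _ h' => LE.trans h' h⟩

theorem cls_eq {F G : Fn Ω} : cls F = cls G ↔ LE F G ∧ LE G F := by
  rw [Subset.antisymm_iff, cls_subset, cls_subset]

theorem cls_mul (V : Fn Ω) (h1 : ∀ y p, 1 ≤ V y p) (h2 : ∀ y p, V y p ≤ 2) (F : Fn Ω) :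
    cls (fun y p => V y p * F y p) = cls F := by
  rw [cls_eq]
  refine ⟨⟨2, fun y p => ?_⟩, ⟨1, fun y p => ?_⟩⟩
  · rw [abs_mul, abs_of_pos (by linarith [h1 y p])]
    push_cast
    exact mul_le_mul_of_nonneg_right (h2 y p) (abs_nonneg _)
  · rw [abs_mul, abs_of_pos (by linarith [h1 y p] : 0 < V y p)]
    push_cast
    nlinarith [abs_nonneg (F y p), h1 y p]

theorem ite_wt_ge (P : Prop) {_ : Decidable P} (p : Y) : 1 ≤ (if P then wt p else 1) := by
  split_ifs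
  · exact one_le_wt p
  · exact le_rfl

theorem ite_wt_le (P : Prop) {_ : Decidable P} (p : Y) : (if P then wt p else 1) ≤ 2 := by
  split_ifs
  · exact wt_le_two p
  · exact one_le_two

theorem Supp.lift {S S' : Set Ω} (hS : S ⊆ S') {F : Fn Ω} (h : Supp S F) :
    ∃ V : Fn Ω, (∀ y p, 1 ≤ V y p) ∧ (∀ y p, V y p ≤ 2) ∧ Supp S' (fun y p => V y p * F y p) := by
  classical
  exact ⟨_, fun y p => ite_wt_ge _ p, fun y p => ite_wt_le _ p,
    h.up hS (fun y => ¬ In S y.1) (fun _ _ _ a => not_not.2 a) (fun _ _ _ a _ => a)⟩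

theorem Supp.lift' {S S' : Set Ω} (hS : S ⊆ S') {F : Fn Ω} (h : Supp S F) :
    ∃ F', Supp S' F' ∧ cls F = cls F' := by
  obtain ⟨V, h1, h2, h3⟩ := h.lift hS
  exact ⟨_, h3, (cls_mul V h1 h2 F).symm⟩

theorem LE_max {F G H : Fn Ω} :
    LE (fun y p => max |F y p| |G y p|) H ↔ LE F H ∧ LE G H := by
  constructor
  · rintro ⟨n, hn⟩
    exact ⟨⟨n, fun y p => (le_max_left _ _).trans ((le_abs_self _).trans (hn y p))⟩,
      ⟨n, fun y p => (le_max_right _ _).trans ((le_abs_self _).trans (hn y p))⟩⟩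
  · rintro ⟨⟨n, hn⟩, ⟨m, hm⟩⟩
    refine ⟨n + m, fun y p => ?_⟩
    rw [abs_of_nonneg (le_max_of_le_left (abs_nonneg _))]
    push_cast
    have a1 : 0 ≤ (n : ℝ) * |H y p| := by positivity
    have a2 : 0 ≤ (m : ℝ) * |H y p| := by positivity
    exact max_le (by linarith [hn y p]) (by linarith [hm y p])

theorem LE_min {F G H : Fn Ω} :
    LE H (fun y p => min |F y p| |G y p|) ↔ LE H F ∧ LE H G := by
  have h0 : ∀ y p, abs (min |F y p| |G y p|) = min |F y p| |G y p| := fun y p =>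
    abs_of_nonneg (le_min (abs_nonneg _) (abs_nonneg _))
  constructor
  · rintro ⟨n, hn⟩
    simp only [h0] at hn
    exact ⟨⟨n, fun y p => (hn y p).trans (mul_le_mul_of_nonneg_left (min_le_left _ _) n.cast_nonneg)⟩,
      ⟨n, fun y p => (hn y p).trans (mul_le_mul_of_nonneg_left (min_le_right _ _) n.cast_nonneg)⟩⟩
  · rintro ⟨⟨n, hn⟩, ⟨m, hm⟩⟩
    refine ⟨n + m, fun y p => ?_⟩
    rw [h0]
    push_cast
    have a1 : 0 ≤ (n : ℝ) * |G y p| := by positivity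
    have a2 : 0 ≤ (m : ℝ) * |F y p| := by positivity
    rcases min_choice |F y p| |G y p| with e | e <;> rw [e]
    · linarith [hn y p]
    · linarith [hm y p]

end

/-- The lattice. -/
def DD (κ : Cardinal.{u}) (Ω : Type u) : Type u :=
  {J : Set (Fn Ω) // ∃ (S : Set Ω) (F : Fn Ω), #S < κ ∧ Supp S F ∧ J = cls F}

section
variable {κ : Cardinal.{u}} {Ω : Type u}

instance : PartialOrder (DD κ Ω) := Subtype.partialOrder _

theorem DD.le_iff {a b : DD κ Ω} {F G : Fn Ω} (ha : a.1 = cls F) (hb : b.1 = cls G) :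
    a ≤ b ↔ LE F G := by
  rw [← cls_subset, ← ha, ← hb]; rfl

variable [hκ : Fact (ℵ₀ ≤ κ)]

theorem union_small {S T : Set Ω} (hS : #S < κ) (hT : #T < κ) : #(S ∪ T : Set Ω) < κ :=
  (mk_union_le S T).trans_lt (add_lt_of_lt hκ.out hS hT)

theorem DD.common (a b : DD κ Ω) : ∃ (S : Set Ω) (F G : Fn Ω), #S < κ ∧ Supp S F ∧ Supp S G ∧
    a.1 = cls F ∧ b.1 = cls G := by
  obtain ⟨S, F, hS, hF, ea⟩ := a.2
  obtain ⟨T, G, hT, hG, eb⟩ := b.2
  obtain ⟨F', h1, h2⟩ := hF.lift' (subset_union_left (t := T))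
  obtain ⟨G', g1, g2⟩ := hG.lift' (subset_union_right (s := S))
  exact ⟨S ∪ T, F', G', union_small hS hT, h1, g1, ea.trans h2, eb.trans g2⟩

theorem DD.exists_sup (a b : DD κ Ω) : ∃ c : DD κ Ω, ∀ d, c ≤ d ↔ a ≤ d ∧ b ≤ d := by
  obtain ⟨S, F, G, hS, hF, hG, ea, eb⟩ := DD.common a b
  refine ⟨⟨_, S, _, hS, hF.abs.max hG.abs, rfl⟩, fun d => ?_⟩
  obtain ⟨T, H, _, _, ed⟩ := d.2
  rw [DD.le_iff ea ed, DD.le_iff eb ed, ← LE_max]
  exact DD.le_iff rfl ed

theorem DD.exists_inf (a b : DD κ Ω) : ∃ c : DD κ Ω, ∀ d, d ≤ c ↔ d ≤ a ∧ d ≤ b := by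
  obtain ⟨S, F, G, hS, hF, hG, ea, eb⟩ := DD.common a b
  refine ⟨⟨_, S, _, hS, hF.abs.min hG.abs, rfl⟩, fun d => ?_⟩
  obtain ⟨T, H, _, _, ed⟩ := d.2
  rw [DD.le_iff ed ea, DD.le_iff ed eb, ← LE_min]
  exact DD.le_iff ed rfl

noncomputable instance : Lattice (DD κ Ω) :=
  { (inferInstance : PartialOrder (DD κ Ω)) with
    sup := fun a b => (DD.exists_sup a b).choose
    le_sup_left := fun a b => (((DD.exists_sup a b).choose_spec _).1 le_rfl).1
    le_sup_right := fun a b => (((DD.exists_sup a b).choose_spec _).1 le_rfl).2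
    sup_le := fun a b c h1 h2 => ((DD.exists_sup a b).choose_spec c).2 ⟨h1, h2⟩
    inf := fun a b => (DD.exists_inf a b).choose
    inf_le_left := fun a b => (((DD.exists_inf a b).choose_spec _).1 le_rfl).1
    inf_le_right := fun a b => (((DD.exists_inf a b).choose_spec _).1 le_rfl).2
    le_inf := fun a b c h1 h2 => ((DD.exists_inf b c).choose_spec a).2 ⟨h1, h2⟩ }

theorem DD.sup_val {a b : DD κ Ω} {F G : Fn Ω} (ha : a.1 = cls F) (hb : b.1 = cls G) :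
    (a ⊔ b).1 = cls (fun y p => max |F y p| |G y p|) := by
  obtain ⟨S, F', G', hS, hF, hG, ea, eb⟩ := DD.common a b
  let c : DD κ Ω := ⟨_, S, _, hS, hF.abs.max hG.abs, rfl⟩
  have e1 : a ⊔ b = c := by
    refine eq_of_forall_ge_iff fun d => ?_
    obtain ⟨T, H, _, _, ed⟩ := d.2
    rw [sup_le_iff, DD.le_iff (a := c) rfl ed, DD.le_iff ea ed, DD.le_iff eb ed, LE_max]
  rw [e1]
  have e2 := cls_eq.1 (ha.symm.trans ea)
  have e3 := cls_eq.1 (hb.symm.trans eb)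
  have m1 := LE_max.1 (LE.refl (fun y p => max |F y p| |G y p|))
  have m2 := LE_max.1 (LE.refl (fun y p => max |F' y p| |G' y p|))
  exact cls_eq.2 ⟨LE_max.2 ⟨e2.2.trans m1.1, e3.2.trans m1.2⟩,
    LE_max.2 ⟨e2.1.trans m2.1, e3.1.trans m2.2⟩⟩

theorem DD.inf_val {a b : DD κ Ω} {F G : Fn Ω} (ha : a.1 = cls F) (hb : b.1 = cls G) :
    (a ⊓ b).1 = cls (fun y p => min |F y p| |G y p|) := by
  obtain ⟨S, F', G', hS, hF, hG, ea, eb⟩ := DD.common a b
  let c : DD κ Ω := ⟨_, S, _, hS, hF.abs.min hG.abs, rfl⟩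
  have e1 : a ⊓ b = c := by
    refine eq_of_forall_le_iff fun d => ?_
    obtain ⟨T, H, _, _, ed⟩ := d.2
    rw [le_inf_iff, DD.le_iff (b := c) ed rfl, DD.le_iff ed ea, DD.le_iff ed eb, LE_min]
  rw [e1]
  have e2 := cls_eq.1 (ha.symm.trans ea)
  have e3 := cls_eq.1 (hb.symm.trans eb)
  have m1 := LE_min.1 (LE.refl (fun y p => min |F y p| |G y p|))
  have m2 := LE_min.1 (LE.refl (fun y p => min |F' y p| |G' y p|))
  exact cls_eq.2 ⟨LE_min.2 ⟨m2.1.trans e2.2, m2.2.trans e3.2⟩,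
    LE_min.2 ⟨m1.1.trans e2.1, m1.2.trans e3.1⟩⟩

end

end Pool.Agent.H22Z.IdC
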