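import Mathlib

/-! Definitions: the infinitary logic of lattices, and lattices of finitely generated
l-ideals of Archimedean l-groups with order-unit. -/

set_option autoImplicit false

universe u

namespace Pool.Agent.H22Z.IdC

/-- Terms of the signature (join, meet) with variables in `α`. -/
inductive LTerm (α : Type u) : Type u
  | var : α → LTerm α
  | sup : LTerm α → LTerm α → LTerm α
  | inf : LTerm α → LTerm α → LTerm α

/-- Value of a term in a lattice under a valuation. -/
def LTerm.eval {α D : Type u} [Lattice D] (v : α → D) : LTerm α → D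
  | .var x => v x
  | .sup s t => s.eval v ⊔ t.eval v
  | .inf s t => s.eval v ⊓ t.eval v

/-- Formulas of the infinitary logic with free variables in `α`: equations, negation,
conjunctions and disjunctions over arbitrary index sets, and universal and existential
quantification over arbitrary sets `β` of variables. -/
inductive LForm : Type u → Type (u + 1)
  | eq {α : Type u} : LTerm α → LTerm α → LForm α
  | not {α : Type u} : LForm α → LForm α
  | conj {α : Type u} (ι : Type u) : (ι → LForm α) → LForm α
  | disj {α : Type u} (ι : Type u) : (ι → LForm α) → LForm α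
  | all {α : Type u} (β : Type u) : LForm (α ⊕ β) → LForm α
  | ex {α : Type u} (β : Type u) : LForm (α ⊕ β) → LForm α

/-- Satisfaction of a formula in the lattice `D` under a valuation. -/
def LForm.Sat (D : Type u) [Lattice D] : {α : Type u} → LForm α → (α → D) → Prop
  | _, .eq s t, v => s.eval v = t.eval v
  | _, .not φ, v => ¬ φ.Sat D v
  | _, .conj _ f, v => ∀ i, (f i).Sat D v
  | _, .disj _ f, v => ∃ i, (f i).Sat D v
  | _, .all β φ, v => ∀ w : β → D, φ.Sat D (Sum.elim v w)
  | _, .ex β φ, v => ∃ w : β → D, φ.Sat D (Sum.elim v w)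

section
variable {G : Type u} [AddCommGroup G] [Lattice G]

/-- An l-ideal: a subgroup that is a sublattice and is convex. -/
def IsLIdeal (I : AddSubgroup G) : Prop :=
  (∀ a ∈ I, ∀ b ∈ I, a ⊔ b ∈ I ∧ a ⊓ b ∈ I) ∧
    ∀ a ∈ I, ∀ b ∈ I, ∀ x : G, a ≤ x → x ≤ b → x ∈ I

/-- A finitely generated l-ideal: the least l-ideal containing some finite set. -/
def IsFGIdeal (I : AddSubgroup G) : Prop :=
  IsLIdeal I ∧ ∃ s : Finset G, (∀ a ∈ s, a ∈ I) ∧
    ∀ J : AddSubgroup G, IsLIdeal J → (∀ a ∈ s, a ∈ J) → I ≤ J

end

/-- The finitely generated l-ideals of `G`, ordered by inclusion. -/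
abbrev Idc (G : Type u) [AddCommGroup G] [Lattice G] : Type u :=
  {I : AddSubgroup G // IsFGIdeal I}

/-- `D` is isomorphic to the lattice of finitely generated l-ideals of an Archimedean
l-group with an order-unit. -/
def InCu (D : Type u) [Lattice D] : Prop :=
  ∃ (G : Type u) (_ : AddCommGroup G) (_ : Lattice G) (_ : IsOrderedAddMonoid G),
    (∀ x y : G, (∀ n : ℕ, 1 ≤ n → n • x ≤ y) → x ≤ 0) ∧
    (∃ e : G, 0 ≤ e ∧ ∀ x : G, ∃ n : ℕ, 1 ≤ n ∧ x ≤ n • e) ∧
    Nonempty (D ≃o Idc G)

end Pool.Agent.H22Z.IdC
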