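import Mathlib

set_option autoImplicit false

open unitInterval Set

namespace Pool.Agent.H22Z.IdC

abbrev Y := I × I × I

def wt (p : Y) : ℝ := 1 + p.2.2

theorem one_le_wt (p : Y) : 1 ≤ wt p := by unfold wt; linarith [p.2.2.2.1]
theorem wt_le_two (p : Y) : wt p ≤ 2 := by unfold wt; linarith [p.2.2.2.2]
theorem wt_pos (p : Y) : 0 < wt p := lt_of_lt_of_le one_pos (one_le_wt p)
theorem wt_cont : Continuous wt := by unfold wt; fun_prop

abbrev C4 := ℝ × ℝ × ℝ × ℝ

def lin (c : C4) (p : Y) : ℝ := c.1 + c.2.1 * p.1 + wt p * (c.2.2.1 + c.2.2.2 * p.2.1)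

theorem lin_cont (c : C4) : Continuous (lin c) := by
  have := wt_cont
  unfold lin; fun_prop

theorem lin_add (c d : C4) (p : Y) : lin (c + d) p = lin c p + lin d p := by
  simp only [lin, Prod.fst_add, Prod.snd_add]; ring

theorem lin_neg (c : C4) (p : Y) : lin (-c) p = - lin c p := by
  simp only [lin, Prod.fst_neg, Prod.snd_neg]; ring

theorem lin_zero (p : Y) : lin 0 p = 0 := by simp [lin]

def B (f : Y → ℝ) : Prop := Continuous f ∧ ∃ s : Set C4, s.Finite ∧ ∀ p, ∃ c ∈ s, f p = lin c p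

theorem B_lin (c : C4) : B (lin c) := ⟨lin_cont c, {c}, finite_singleton c, fun _ => ⟨c, rfl, rfl⟩⟩

theorem B_const (a : ℝ) : B (fun _ => a) := by
  convert B_lin (a, 0, 0, 0) using 2
  simp [lin]

theorem B_wconst (a : ℝ) : B (fun p => wt p * a) := by
  convert B_lin (0, 0, a, 0) using 2
  simp [lin]

theorem B.neg {f : Y → ℝ} (hf : B f) : B (fun p => - f p) := by
  obtain ⟨h1, s, hs, h2⟩ := hf
  refine ⟨h1.neg, Neg.neg '' s, hs.image _, fun p => ?_⟩
  obtain ⟨c, hc, h⟩ := h2 p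
  exact ⟨-c, mem_image_of_mem _ hc, by simp only [lin_neg, h]⟩

theorem B.add {f g : Y → ℝ} (hf : B f) (hg : B g) : B (fun p => f p + g p) := by
  obtain ⟨h1, s, hs, h2⟩ := hf
  obtain ⟨g1, t, ht, g2⟩ := hg
  refine ⟨h1.add g1, image2 (· + ·) s t, hs.image2 _ ht, fun p => ?_⟩
  obtain ⟨c, hc, h⟩ := h2 p
  obtain ⟨d, hd, h'⟩ := g2 p
  exact ⟨c + d, mem_image2_of_mem hc hd, by simp only [lin_add, h, h']⟩

theorem B.max {f g : Y → ℝ} (hf : B f) (hg : B g) : B (fun p => max (f p) (g p)) := by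
  obtain ⟨h1, s, hs, h2⟩ := hf
  obtain ⟨g1, t, ht, g2⟩ := hg
  refine ⟨h1.max g1, s ∪ t, hs.union ht, fun p => ?_⟩
  obtain ⟨c, hc, h⟩ := h2 p
  obtain ⟨d, hd, h'⟩ := g2 p
  rcases max_choice (f p) (g p) with e | e
  · exact ⟨c, Or.inl hc, e.trans h⟩
  · exact ⟨d, Or.inr hd, e.trans h'⟩

def Dep1 (f : Y → ℝ) : Prop := ∀ p q : Y, p.1 = q.1 → f p = f q
def Dep2 (f : Y → ℝ) : Prop := ∀ p q : Y, p.2.1 = q.2.1 → f p = f q

def A (P Q : Prop) (f : Y → ℝ) : Prop :=
  (P → Q → B f) ∧ (P → ¬ Q → B f ∧ Dep1 f) ∧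
    (¬ P → Q → B (fun p => wt p * f p) ∧ Dep2 f) ∧ (¬ P → ¬ Q → ∃ a, f = fun _ => a)

theorem A_const (P Q : Prop) (a : ℝ) : A P Q (fun _ => a) :=
  ⟨fun _ _ => B_const a, fun _ _ => ⟨B_const a, fun _ _ _ => rfl⟩,
    fun _ _ => ⟨B_wconst a, fun _ _ _ => rfl⟩, fun _ _ => ⟨a, rfl⟩⟩

theorem A.neg {P Q : Prop} {f : Y → ℝ} (hf : A P Q f) : A P Q (fun p => - f p) := by
  obtain ⟨h1, h2, h3, h4⟩ := hf
  refine ⟨fun a b => (h1 a b).neg, fun a b => ⟨(h2 a b).1.neg, fun p q h => ?_⟩,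
    fun a b => ⟨?_, fun p q h => ?_⟩, fun a b => ?_⟩
  · simp only [(h2 a b).2 p q h]
  · convert (h3 a b).1.neg using 2; ring
  · simp only [(h3 a b).2 p q h]
  · obtain ⟨c, rfl⟩ := h4 a b
    exact ⟨-c, rfl⟩

theorem A.add {P Q : Prop} {f g : Y → ℝ} (hf : A P Q f) (hg : A P Q g) :
    A P Q (fun p => f p + g p) := by
  obtain ⟨h1, h2, h3, h4⟩ := hf
  obtain ⟨g1, g2, g3, g4⟩ := hg
  refine ⟨fun a b => (h1 a b).add (g1 a b),
    fun a b => ⟨(h2 a b).1.add (g2 a b).1, fun p q h => ?_⟩,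
    fun a b => ⟨?_, fun p q h => ?_⟩, fun a b => ?_⟩
  · simp only [(h2 a b).2 p q h, (g2 a b).2 p q h]
  · convert (h3 a b).1.add (g3 a b).1 using 2; ring
  · simp only [(h3 a b).2 p q h, (g3 a b).2 p q h]
  · obtain ⟨c, rfl⟩ := h4 a b
    obtain ⟨d, rfl⟩ := g4 a b
    exact ⟨c + d, rfl⟩

theorem A.max {P Q : Prop} {f g : Y → ℝ} (hf : A P Q f) (hg : A P Q g) :
    A P Q (fun p => max (f p) (g p)) := by
  obtain ⟨h1, h2, h3, h4⟩ := hf
  obtain ⟨g1, g2, g3, g4⟩ := hg
  refine ⟨fun a b => (h1 a b).max (g1 a b),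
    fun a b => ⟨(h2 a b).1.max (g2 a b).1, fun p q h => ?_⟩,
    fun a b => ⟨?_, fun p q h => ?_⟩, fun a b => ?_⟩
  · simp only [(h2 a b).2 p q h, (g2 a b).2 p q h]
  · convert (h3 a b).1.max (g3 a b).1 using 2
    rename_i p
    exact mul_max_of_nonneg _ _ (wt_pos p).le
  · simp only [(h3 a b).2 p q h, (g3 a b).2 p q h]
  · obtain ⟨c, rfl⟩ := h4 a b
    obtain ⟨d, rfl⟩ := g4 a b
    exact ⟨Max.max c d, rfl⟩

theorem A.cont {P Q : Prop} {f : Y → ℝ} (hf : A P Q f) : Continuous f := by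
  obtain ⟨h1, h2, h3, h4⟩ := hf
  by_cases a : P <;> by_cases b : Q
  · exact (h1 a b).1
  · exact (h2 a b).1.1
  · have := ((h3 a b).1.1).div wt_cont fun p => (wt_pos p).ne'
    refine this.congr fun p => ?_
    have := (wt_pos p).ne'
    simp only [Pi.div_apply]
    field_simp
  · obtain ⟨c, rfl⟩ := h4 a b
    exact continuous_const

theorem A.dep1 {P Q : Prop} {f : Y → ℝ} (hf : A P Q f) (hQ : ¬ Q) : Dep1 f := by
  by_cases a : P
  · exact (hf.2.1 a hQ).2
  · obtain ⟨c, rfl⟩ := hf.2.2.2 a hQ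
    exact fun _ _ _ => rfl

theorem A.dep2 {P Q : Prop} {f : Y → ℝ} (hf : A P Q f) (hP : ¬ P) : Dep2 f := by
  by_cases b : Q
  · exact (hf.2.2.1 hP b).2
  · obtain ⟨c, rfl⟩ := hf.2.2.2 hP b
    exact fun _ _ _ => rfl

open Classical in
theorem A.up {P Q P' Q' b : Prop} {f : Y → ℝ} (hP : P → P') (hQ : Q → Q')
    (hb1 : P' → Q' → P → ¬ b) (hb2 : P' → Q' → ¬ P → Q → b) (hf : A P Q f) :
    A P' Q' (fun p => (if P' ∧ Q' ∧ b then wt p else 1) * f p) := by
  obtain ⟨h1, h2, h3, h4⟩ := hf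
  refine ⟨fun a' b' => ?_, fun a' b' => ?_, fun a' b' => ?_, fun a' b' => ?_⟩
  · by_cases a : P
    · have := hb1 a' b' a
      simp only [this, and_false, if_false, one_mul]
      by_cases q : Q
      · exact h1 a q
      · exact (h2 a q).1
    · by_cases q : Q
      · have := hb2 a' b' a q
        simp only [this, a', b', and_self, if_true]
        exact (h3 a q).1
      · obtain ⟨c, rfl⟩ := h4 a q
        by_cases hb : b
        · simp only [hb, a', b', and_self, if_true]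
          exact B_wconst c
        · simp only [hb, and_false, if_false, one_mul]
          exact B_const c
  · simp only [b', false_and, and_false, if_false, one_mul]
    have q : ¬ Q := fun q => b' (hQ q)
    by_cases a : P
    · exact h2 a q
    · obtain ⟨c, rfl⟩ := h4 a q
      exact ⟨B_const c, fun _ _ _ => rfl⟩
  · simp only [a', false_and, if_false, one_mul]
    have a : ¬ P := fun a => a' (hP a)
    by_cases q : Q
    · exact h3 a q
    · obtain ⟨c, rfl⟩ := h4 a q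
      exact ⟨B_wconst c, fun _ _ _ => rfl⟩
  · simp only [a', false_and, if_false, one_mul]
    exact h4 (fun a => a' (hP a)) (fun q => b' (hQ q))

theorem A_a1 {P Q : Prop} (hP : P) : A P Q (fun p => (p.1 : ℝ)) := by
  have hB : B (fun p => (p.1 : ℝ)) := by
    convert B_lin (0, 1, 0, 0) using 2
    simp [lin]
  exact ⟨fun _ _ => hB, fun _ _ => ⟨hB, fun p q h => by simp only [h]⟩, fun a => absurd hP a,
    fun a => absurd hP a⟩

theorem A_a2 {P Q : Prop} (hP : ¬ P) (hQ : Q) : A P Q (fun p => (p.2.1 : ℝ)) := by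
  have hB : B (fun p => wt p * (p.2.1 : ℝ)) := by
    convert B_lin (0, 0, 0, 1) using 2
    simp [lin]
  exact ⟨fun a => absurd a hP, fun a => absurd a hP,
    fun _ _ => ⟨hB, fun p q h => by simp only [h]⟩, fun _ b => absurd hQ b⟩

theorem fiber_contra (g1 g2 : I → ℝ) (h1 : Continuous g1) (h2 : Continuous g2)
    (z1 : g1 0 = 0) (z2 : g2 0 = 0) (q : ℝ) (hq : 0 < q) (q1 : q < g1 1) (q2 : q < g2 1)
    (f : Y → ℝ) (hf : B f) (hgt : ∀ p : Y, q < g1 p.1 + g2 p.2.1 → f p ≠ 0)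
    (hlt : ∀ p : Y, g1 p.1 + g2 p.2.1 < q → f p = 0) : False := by
  obtain ⟨fc, s, hs, hfs⟩ := hf
  have key : ∀ t ∈ Ioo 0 q, ∃ c ∈ s, (∃ a : I, (a : ℝ) = - c.1 / c.2.1 ∧ t = g1 a) ∨
      (∃ a : I, (a : ℝ) = - c.2.2.1 / c.2.2.2 ∧ t = q - g2 a) := by
    intro t ht
    obtain ⟨r, hr, hrmax⟩ := (isClosed_le h1 (continuous_const (y := t))).isCompact.exists_isGreatest
      ⟨0, by simp [z1, ht.1.le]⟩
    obtain ⟨l, hl, hlmin⟩ :=
      (isClosed_le (continuous_const (y := q - t)) h2).isCompact.exists_isLeast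
      ⟨1, by simp; linarith [ht.1]⟩
    simp only [mem_ofPred_eq] at hr hl
    have rgt : ∀ a, r < a → t < g1 a := fun a ha => by
      by_contra hc
      exact absurd (hrmax (not_lt.1 hc)) (not_le.2 ha)
    have llt : ∀ a, a < l → g2 a < q - t := fun a ha => by
      by_contra hc
      exact absurd (hlmin (not_lt.1 hc)) (not_le.2 ha)
    have r1 : r < 1 := by
      refine lt_of_le_of_ne r.2.2 fun h => ?_
      rw [h] at hr; linarith [ht.2]
    have l0 : 0 < l := by
      refine lt_of_le_of_ne l.2.1 fun h => ?_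
      rw [← h, z2] at hl; linarith [ht.2]
    have rcl : r ∈ closure (Ioi r) := by rw [closure_Ioi' (a := r) ⟨1, r1⟩]; exact self_mem_Ici
    have lcl : l ∈ closure (Iio l) := by rw [closure_Iio' (a := l) ⟨0, l0⟩]; exact self_mem_Iic
    have gr : g1 r = t := by
      refine le_antisymm hr ?_
      exact (isClosed_le (continuous_const (y := t)) h1).closure_subset_iff.2
        (fun a ha => (rgt a ha).le) rcl
    have gl : g2 l = q - t := by
      refine le_antisymm ?_ hl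
      exact (isClosed_le h2 (continuous_const (y := q - t))).closure_subset_iff.2
        (fun a ha => (llt a ha).le) lcl
    have hw : ∀ w : I, ∃ c : s, (c : C4) ≠ 0 ∧ lin c (r, l, w) = 0 := by
      intro w
      have f0 : f (r, l, w) = 0 := by
        have hcl : IsClosed {a : I | f (r, a, w) = 0} :=
          isClosed_eq (fc.comp (by fun_prop)) continuous_const
        refine hcl.closure_subset_iff.2 (fun a ha => hlt _ ?_) lcl
        have := llt a ha
        simp only; linarith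
      have hcl : IsClosed (⋃ c ∈ {c ∈ s | c ≠ 0}, {a : I | f (a, l, w) = lin c (a, l, w)}) := by
        refine (hs.subset fun c hc => hc.1).isClosed_biUnion fun c _ => ?_
        exact isClosed_eq (fc.comp (by fun_prop)) ((lin_cont c).comp (by fun_prop))
      have := (hcl.closure_subset_iff (s := Ioi r)).2 (fun a ha => ?_) rcl
      · simp only [mem_iUnion, mem_ofPred_eq] at this
        obtain ⟨c, ⟨hc, hc0⟩, h⟩ := this
        exact ⟨⟨c, hc⟩, hc0, by rw [← h, f0]⟩
      · obtain ⟨c, hc, h⟩ := hfs (a, l, w)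
        have hne : f (a, l, w) ≠ 0 := hgt _ (by have := rgt a ha; simp only; linarith)
        simp only [mem_iUnion, mem_ofPred_eq]
        refine ⟨c, ⟨hc, fun h0 => hne ?_⟩, h⟩
        rw [h, h0, lin_zero]
    choose c hc0 hc using hw
    have : Finite s := hs
    have : Infinite I := Set.Icc.infinite (zero_lt_one' ℝ)
    obtain ⟨w, w', hne, heq⟩ := Finite.exists_ne_map_eq_of_infinite c
    have e1 := hc w
    have e2 := hc w'
    rw [← heq] at e2
    have hc0' := hc0 w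
    set d : C4 := (c w : C4) with hd
    simp only [lin, wt] at e1 e2
    have hne' : (w : ℝ) - w' ≠ 0 := sub_ne_zero.2 fun h => hne (Subtype.ext h)
    have e3 : d.2.2.1 + d.2.2.2 * l = 0 := by
      apply mul_left_cancel₀ hne'
      linarith
    have e4 : d.1 + d.2.1 * r = 0 := by rw [e3] at e1; linarith
    refine ⟨d, (c w).2, ?_⟩
    by_cases a1 : d.2.1 = 0
    · by_cases a2 : d.2.2.2 = 0
      · exfalso
        apply hc0'
        rw [a1] at e4
        rw [a2] at e3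
        ext <;> simp <;> linarith
      · right
        refine ⟨l, ?_, by linarith⟩
        field_simp; linarith
    · left
      refine ⟨r, ?_, gr.symm⟩
      field_simp; linarith
  refine Set.Ioo_infinite hq (Set.Finite.subset (s := ⋃ c ∈ s,
    ({t | ∃ a : I, (a : ℝ) = - c.1 / c.2.1 ∧ t = g1 a} ∪
      {t | ∃ a : I, (a : ℝ) = - c.2.2.1 / c.2.2.2 ∧ t = q - g2 a})) ?_ ?_)
  · refine hs.biUnion fun c _ => Set.Finite.union ?_ ?_
    · apply Set.Subsingleton.finite
      rintro t ⟨a, ha, rfl⟩ t' ⟨a', ha', rfl⟩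
      rw [Subtype.ext (ha.trans ha'.symm)]
    · apply Set.Subsingleton.finite
      rintro t ⟨a, ha, rfl⟩ t' ⟨a', ha', rfl⟩
      rw [Subtype.ext (ha.trans ha'.symm)]
  · intro t ht
    obtain ⟨c, hc, h⟩ := key t ht
    simp only [mem_iUnion]
    exact ⟨c, hc, h⟩

end Pool.Agent.H22Z.IdC
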