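import Pool.Agent.H22Z.IdC.Defs

set_option autoImplicit false

universe u

namespace Pool.Agent.H22Z.IdC

section
variable {G : Type u} [AddCommGroup G] [Lattice G] [IsOrderedAddMonoid G]

/-- principal l-ideal -/
def pid (g : G) : AddSubgroup G where
  carrier := {h | ∃ n : ℕ, |h| ≤ n • |g|}
  zero_mem' := ⟨0, by simp⟩
  add_mem' := by
    rintro a b ⟨n, hn⟩ ⟨m, hm⟩
    exact ⟨n + m, (abs_add_le a b).trans (by rw [add_nsmul]; exact add_le_add hn hm)⟩
  neg_mem' := by
    rintro a ⟨n, hn⟩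
    exact ⟨n, by rwa [abs_neg]⟩

theorem mem_pid {g h : G} : h ∈ pid g ↔ ∃ n : ℕ, |h| ≤ n • |g| := Iff.rfl

theorem self_mem_pid (g : G) : g ∈ pid g := ⟨1, by simp⟩

theorem mem_pid_of_abs_le {g h k : G} (hk : k ∈ pid g) (h1 : |h| ≤ |k|) : h ∈ pid g := by
  obtain ⟨n, hn⟩ := hk
  exact ⟨n, h1.trans hn⟩

theorem abs_le_of_between {a b x : G} (h1 : a ≤ x) (h2 : x ≤ b) : |x| ≤ |a| + |b| := by
  refine abs_le'.2 ⟨?_, ?_⟩
  · exact h2.trans ((le_abs_self b).trans (le_add_of_nonneg_left (abs_nonneg a)))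
  · exact (neg_le_neg h1).trans ((neg_le_abs a).trans (le_add_of_nonneg_right (abs_nonneg b)))

theorem abs_mem_pid {g a : G} (ha : a ∈ pid g) : |a| ∈ pid g :=
  mem_pid_of_abs_le ha (by rw [abs_abs])

theorem pid_conv {g a b x : G} (ha : a ∈ pid g) (hb : b ∈ pid g)
    (h : |x| ≤ |a| + |b|) : x ∈ pid g :=
  mem_pid_of_abs_le ((pid g).add_mem (abs_mem_pid ha) (abs_mem_pid hb))
    (h.trans (le_abs_self _))

theorem isLIdeal_pid (g : G) : IsLIdeal (pid g) := by
  refine ⟨fun a ha b hb => ⟨?_, ?_⟩, fun a ha b hb x h1 h2 =>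
    pid_conv ha hb (abs_le_of_between h1 h2)⟩
  · refine pid_conv ha hb (abs_le'.2 ⟨sup_le ?_ ?_, ?_⟩)
    · exact (le_abs_self a).trans (le_add_of_nonneg_right (abs_nonneg b))
    · exact (le_abs_self b).trans (le_add_of_nonneg_left (abs_nonneg a))
    · exact (neg_le_neg (le_sup_left : a ≤ a ⊔ b)).trans
        ((neg_le_abs a).trans (le_add_of_nonneg_right (abs_nonneg b)))
  · refine pid_conv ha hb (abs_le'.2 ⟨?_, ?_⟩)
    · exact (inf_le_left : a ⊓ b ≤ a).trans
        ((le_abs_self a).trans (le_add_of_nonneg_right (abs_nonneg b)))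
    · rw [neg_inf]
      refine sup_le ?_ ?_
      · exact (neg_le_abs a).trans (le_add_of_nonneg_right (abs_nonneg b))
      · exact (neg_le_abs b).trans (le_add_of_nonneg_left (abs_nonneg a))

theorem pid_le {g : G} {J : AddSubgroup G} (hJ : IsLIdeal J) (hg : g ∈ J) : pid g ≤ J := by
  rintro h ⟨n, hn⟩
  have h1 : |g| ∈ J := (hJ.1 g hg (-g) (J.neg_mem hg)).1
  have h2 : n • |g| ∈ J := J.nsmul_mem h1 n
  refine hJ.2 _ (J.neg_mem h2) _ h2 h ?_ ((le_abs_self h).trans hn)
  exact neg_le.1 ((neg_le_abs h).trans hn)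

theorem pid_le_pid {g h : G} : pid h ≤ pid g ↔ h ∈ pid g :=
  ⟨fun H => H (self_mem_pid h), fun H => pid_le (isLIdeal_pid g) H⟩

theorem isFG_pid (g : G) : IsFGIdeal (pid g) :=
  ⟨isLIdeal_pid g, {g}, by simp [self_mem_pid], fun J hJ hs => pid_le hJ (hs g (by simp))⟩

theorem IsFGIdeal.eq_pid {I : AddSubgroup G} (hI : IsFGIdeal I) : ∃ g : G, 0 ≤ g ∧ I = pid g := by
  obtain ⟨hL, s, hs, hmin⟩ := hI
  have h0 : 0 ≤ ∑ a ∈ s, |a| := Finset.sum_nonneg fun a _ => abs_nonneg a
  refine ⟨∑ a ∈ s, |a|, h0, le_antisymm ?_ ?_⟩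
  · refine hmin _ (isLIdeal_pid _) fun a ha => ⟨1, ?_⟩
    rw [one_nsmul, abs_of_nonneg h0]
    exact Finset.single_le_sum (f := fun a => |a|) (fun a _ => abs_nonneg a) ha
  · refine pid_le hL (I.sum_mem fun a ha => ?_)
    exact (hL.1 a (hs a ha) (-a) (I.neg_mem (hs a ha))).1

theorem inf_add_le' {x y z : G} (hx : 0 ≤ x) (hy : 0 ≤ y) (hz : 0 ≤ z) :
    x ⊓ (y + z) ≤ x ⊓ y + x ⊓ z := by
  rw [inf_add]
  refine le_inf (inf_le_left.trans (le_add_of_nonneg_right (le_inf hx hz))) ?_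
  rw [add_inf]
  exact le_inf (inf_le_left.trans (le_add_of_nonneg_left hy)) inf_le_right

theorem inf_nsmul_le {x b : G} (hx : 0 ≤ x) (hb : 0 ≤ b) (n : ℕ) : x ⊓ n • b ≤ n • (x ⊓ b) := by
  induction n with
  | zero => simp
  | succ n ih =>
    rw [succ_nsmul, succ_nsmul]
    exact (inf_add_le' hx (nsmul_nonneg hb n) hb).trans (add_le_add ih le_rfl)

theorem eq_zero_of_mem_pid {h k : G} (h1 : k ∈ pid h⁺) (h2 : k ∈ pid (-h)⁺) : k = 0 := by
  obtain ⟨n, hn⟩ := h1
  obtain ⟨m, hm⟩ := h2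
  rw [abs_of_nonneg (posPart_nonneg _)] at hn hm
  rw [posPart_neg] at hm
  have e1 : h⁺ ⊓ m • h⁻ ≤ 0 := by
    have := inf_nsmul_le (posPart_nonneg h) (negPart_nonneg h) m
    rwa [posPart_inf_negPart_eq_zero, nsmul_zero] at this
  have e2 : m • h⁻ ⊓ n • h⁺ ≤ 0 := by
    refine (inf_nsmul_le (nsmul_nonneg (negPart_nonneg h) m) (posPart_nonneg h) n).trans ?_
    rw [inf_comm]
    exact nsmul_nonpos e1 n
  have e3 : |k| ≤ 0 := (le_inf hm hn).trans e2
  exact le_antisymm ((le_abs_self k).trans e3) (neg_nonpos.1 ((neg_le_abs k).trans e3))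

end

section StdPart
variable {H : Type u} [AddCommGroup H] (pos : H → Prop) (e : H)

theorem exists_stdPart (ha : ∀ h, pos h → ¬ pos (-h)) (hb : ∀ h k, pos (h + k) → pos h ∨ pos k)
    (he : pos e) (hu : ∀ h, ∃ n : ℕ, pos (n • e - h)) :
    ∃ φ : H →+ ℝ, φ e = 1 ∧ (∀ h, pos h → 0 ≤ φ h) ∧ ∀ h, 0 < φ h → pos h := by
  have p0 : ¬ pos 0 := fun h => ha 0 h (by rwa [neg_zero])
  have padd : ∀ h k, pos h → pos k → pos (h + k) := by
    intro h k h1 h2
    have : pos ((h + k) + (-k)) := by simpa using h1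
    exact (hb _ _ this).resolve_right (ha k h2)
  have pn : ∀ (n : ℕ) h, pos h → 0 < n → pos (n • h) := by
    intro n h hh hn
    induction n with
    | zero => omega
    | succ n ih =>
      rcases Nat.eq_zero_or_pos n with rfl | h0
      · simpa using hh
      · rw [succ_nsmul]; exact padd _ _ (ih h0) hh
  have pn' : ∀ (n : ℕ) h, pos (n • h) → pos h := by
    intro n h hh
    induction n with
    | zero => exact absurd (by simpa using hh) p0
    | succ n ih =>
      rw [succ_nsmul] at hh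
      exact (hb _ _ hh).elim ih id
  have pz : ∀ m : ℤ, 0 < m → pos (m • e) := by
    intro m hm
    have := pn m.toNat e he (by omega)
    rwa [← natCast_zsmul, Int.toNat_of_nonneg hm.le] at this
  have pz' : ∀ m : ℤ, pos (m • e) → 0 < m := by
    intro m hm
    by_contra hc
    rcases eq_or_lt_of_le (not_lt.1 hc) with h | h
    · rw [h, zero_zsmul] at hm; exact p0 hm
    · have := pz (-m) (by omega)
      rw [neg_zsmul] at this
      exact ha _ hm this
  have pe : ∀ (m : ℤ) h, 0 ≤ m → pos h → pos (h + m • e) := by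
    intro m h hm hh
    rcases eq_or_lt_of_le hm with h0 | h0
    · rw [← h0]; simpa using hh
    · exact padd _ _ hh (pz m h0)
  let S : H → Set ℝ := fun h => {x | ∃ (m : ℤ) (n : ℕ), 0 < n ∧ x = m / n ∧ pos (n • h - m • e)}
  have Sne : ∀ h, (S h).Nonempty := by
    intro h
    obtain ⟨N, hN⟩ := hu (-h)
    refine ⟨_, -(N : ℤ), 1, one_pos, rfl, ?_⟩
    convert hN using 1
    simp [add_comm]
  have Sbd : ∀ h, BddAbove (S h) := by
    intro h
    obtain ⟨N, hN⟩ := hu h
    refine ⟨N, ?_⟩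
    rintro x ⟨m, n, hn, rfl, hp⟩
    have h1 := padd _ _ (pn n _ hN hn) hp
    have h2 : n • (N • e - h) + (n • h - m • e) = ((n : ℤ) * N - m) • e := by
      rw [sub_zsmul, mul_zsmul, natCast_zsmul, natCast_zsmul, nsmul_sub]; abel
    rw [h2] at h1
    have h3 := pz' _ h1
    have hn' : (0 : ℝ) < n := by exact_mod_cast hn
    rw [div_le_iff₀ hn']
    have : (m : ℝ) ≤ (n : ℝ) * N := by exact_mod_cast (by omega : m ≤ (n : ℤ) * N)
    linarith
  have mono : ∀ h (m m' : ℤ) (n n' : ℕ), 0 < n' → pos (n • h - m • e) → m' * n ≤ m * n' →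
      pos (n' • h - m' • e) := by
    intro h m m' n n' hn' hp hle
    have h1 := pe (m * n' - m' * n) _ (by omega) (pn n' _ hp hn')
    apply pn' n
    convert h1 using 1
    simp only [← natCast_zsmul]
    module
  have c1 : ∀ h (m : ℤ) (n : ℕ), 0 < n → (m : ℝ) / n < sSup (S h) → pos (n • h - m • e) := by
    intro h m n hn hlt
    obtain ⟨x, ⟨m', n', hn', rfl, hp⟩, hx⟩ := exists_lt_of_lt_csSup (Sne h) hlt
    refine mono h m' m n' n hn hp ?_
    have a1 : (0 : ℝ) < n := by exact_mod_cast hn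
    have a2 : (0 : ℝ) < n' := by exact_mod_cast hn'
    rw [div_lt_div_iff₀ a1 a2] at hx
    exact_mod_cast hx.le
  have c1' : ∀ h (m : ℤ) (n : ℕ), 0 < n → pos (n • h - m • e) → (m : ℝ) / n ≤ sSup (S h) :=
    fun h m n hn hp => le_csSup (Sbd h) ⟨m, n, hn, rfl, hp⟩
  have c2 : ∀ h (m : ℤ) (n : ℕ), 0 < n → sSup (S h) < (m : ℝ) / n → pos (m • e - n • h) := by
    intro h m n hn hlt
    obtain ⟨q, hq1, hq2⟩ := exists_rat_btwn hlt
    have hq : (q : ℝ) = (q.num : ℝ) / (q.den : ℝ) := by exact_mod_cast (Rat.num_div_den q).symm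
    have hnp : ¬ pos (q.den • h - q.num • e) := fun hp => by
      have := c1' h q.num q.den q.pos hp
      linarith
    have a1 : (0 : ℝ) < n := by exact_mod_cast hn
    have a2 : (0 : ℝ) < q.den := by exact_mod_cast q.pos
    rw [hq, div_lt_div_iff₀ a2 a1] at hq2
    have h3 : 0 < m * q.den - q.num * n := by
      have : q.num * n < m * q.den := by exact_mod_cast hq2
      omega
    have h4 := pz _ h3
    have h5 : (m * q.den - q.num * n) • e =
        q.den • (m • e - n • h) + n • (q.den • h - q.num • e) := by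
      simp only [← natCast_zsmul]
      module
    rw [h5] at h4
    rcases hb _ _ h4 with h6 | h6
    · exact pn' _ _ h6
    · exact absurd (pn' _ _ h6) hnp
  have c2' : ∀ h (m : ℤ) (n : ℕ), 0 < n → pos (m • e - n • h) → sSup (S h) ≤ (m : ℝ) / n := by
    intro h m n hn hp
    by_contra hc
    have := ha _ (c1 h m n hn (not_le.1 hc))
    rw [neg_sub] at this
    exact this hp
  have hadd : ∀ h k, sSup (S (h + k)) = sSup (S h) + sSup (S k) := by
    intro h k
    apply le_antisymm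
    · refine le_of_forall_pos_le_add fun ε hε => ?_
      obtain ⟨n, hn⟩ := exists_nat_gt (2 / ε)
      have a0 : (0 : ℝ) < 2 / ε := by positivity
      have a1 : (0 : ℝ) < n := by linarith
      have hn0 : 0 < n := by exact_mod_cast a1
      have b1 := c2 h (⌊n * sSup (S h)⌋ + 1) n hn0 (by
        rw [lt_div_iff₀ a1]; push_cast; linarith [Int.lt_floor_add_one (n * sSup (S h))])
      have b2 := c2 k (⌊n * sSup (S k)⌋ + 1) n hn0 (by
        rw [lt_div_iff₀ a1]; push_cast; linarith [Int.lt_floor_add_one (n * sSup (S k))])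
      have b3 := padd _ _ b1 b2
      have b4 := c2' (h + k) (⌊n * sSup (S h)⌋ + 1 + (⌊n * sSup (S k)⌋ + 1)) n hn0 (by
        convert b3 using 1
        simp only [← natCast_zsmul]
        module)
      refine b4.trans ?_
      rw [div_le_iff₀ a1]
      rw [div_lt_iff₀ hε] at hn
      push_cast
      nlinarith [Int.floor_le (n * sSup (S h)), Int.floor_le (n * sSup (S k))]
    · refine le_of_forall_pos_le_add fun ε hε => ?_
      obtain ⟨n, hn⟩ := exists_nat_gt (2 / ε)
      have a0 : (0 : ℝ) < 2 / ε := by positivity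
      have a1 : (0 : ℝ) < n := by linarith
      have hn0 : 0 < n := by exact_mod_cast a1
      have b1 := c1 h (⌈n * sSup (S h)⌉ - 1) n hn0 (by
        rw [div_lt_iff₀ a1]; push_cast; linarith [Int.ceil_lt_add_one (n * sSup (S h))])
      have b2 := c1 k (⌈n * sSup (S k)⌉ - 1) n hn0 (by
        rw [div_lt_iff₀ a1]; push_cast; linarith [Int.ceil_lt_add_one (n * sSup (S k))])
      have b3 := padd _ _ b1 b2
      have b4 := c1' (h + k) (⌈n * sSup (S h)⌉ - 1 + (⌈n * sSup (S k)⌉ - 1)) n hn0 (by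
        convert b3 using 1
        simp only [← natCast_zsmul]
        module)
      rw [div_le_iff₀ a1] at b4
      rw [div_lt_iff₀ hε] at hn
      push_cast at b4
      have : (n : ℝ) * (sSup (S h) + sSup (S k)) ≤ n * (sSup (S (h + k)) + ε) := by
        nlinarith [Int.le_ceil (n * sSup (S h)), Int.le_ceil (n * sSup (S k))]
      exact le_of_mul_le_mul_left this a1
  have hpos : ∀ h, pos h → 0 ≤ sSup (S h) := fun h hp => by
    have := c1' h 0 1 one_pos (by simpa using hp)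
    simpa using this
  have hpos' : ∀ h, 0 < sSup (S h) → pos h := fun h hp => by
    have := c1 h 0 1 one_pos (by simpa using hp)
    simpa using this
  refine ⟨AddMonoidHom.mk' (fun h => sSup (S h)) hadd, ?_, hpos, hpos'⟩
  show sSup (S e) = 1
  by_contra hne
  rcases lt_or_gt_of_ne hne with h | h
  · have := c2 e 1 1 one_pos (by simpa using h)
    simp at this; exact p0 this
  · have := c1 e 1 1 one_pos (by simpa using h)
    simp at this; exact p0 this

theorem stdPart_le {pos pos' : H → Prop} {e : H} {φ φ' : H →+ ℝ} (h1 : φ e = 1) (h1' : φ' e = 1)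
    (h2 : ∀ h, pos h → 0 ≤ φ h) (h3 : ∀ h, 0 < φ' h → pos' h) (h : H)
    (hh : ∀ (m : ℤ) (n : ℕ), pos' (n • h - m • e) → pos (n • h - m • e)) : φ' h ≤ φ h := by
  by_contra hc
  obtain ⟨q, hq1, hq2⟩ := exists_rat_btwn (not_le.1 hc)
  have hq : (q : ℝ) = (q.num : ℝ) / (q.den : ℝ) := by exact_mod_cast (Rat.num_div_den q).symm
  have a2 : (0 : ℝ) < q.den := by exact_mod_cast q.pos
  rw [hq] at hq1 hq2
  rw [lt_div_iff₀ a2] at hq1
  rw [div_lt_iff₀ a2] at hq2
  have b1 := h2 _ (hh q.num q.den (h3 _ (by simp [h1']; linarith)))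
  simp [h1] at b1
  linarith

end StdPart

end Pool.Agent.H22Z.IdC
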