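import Pool.Agent.H22Z.IdC.Cond
import Pool.Agent.H22Z.IdC.LGroup

set_option autoImplicit false

universe u

open Cardinal Set unitInterval

namespace Pool.Agent.H22Z.IdC

section
variable {Ω : Type u} {κ : Cardinal.{u}}

def van (y : Pt Ω) (p : Y) (d : DD κ Ω) : Prop := ∀ F ∈ d.1, F y p = 0

theorem van_iff {y : Pt Ω} {p : Y} {d : DD κ Ω} {F : Fn Ω} (h : d.1 = cls F) :
    van y p d ↔ F y p = 0 := by
  unfold van
  rw [h]
  refine ⟨fun H => H F (LE.refl F), fun H G ⟨n, hn⟩ => ?_⟩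
  have := hn y p
  rw [H] at this
  simpa using this

theorem van.mono {y : Pt Ω} {p : Y} {d d' : DD κ Ω} (h : van y p d') (hd : d ≤ d') : van y p d :=
  fun F hF => h F (hd hF)

theorem free_pair (hκ : ℵ₀ ≤ κ) (hΩ : κ < #Ω) (S : Ω → Set Ω) (hS : ∀ x, #(S x) < κ) :
    ∃ x1 x2, x2 ∉ S x1 ∧ x1 ∉ S x2 := by
  obtain ⟨T, hT⟩ := le_mk_iff_exists_set.1 hΩ.le
  have h1 : #(⋃ x : T, S x) ≤ κ := by
    refine (mk_iUnion_le_sum_mk).trans ((sum_le_sum _ (fun _ => κ) fun x : T => (hS x).le).trans ?_)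
    rw [sum_const', hT, mul_eq_self hκ]
  obtain ⟨x2, h2⟩ : ∃ x2, x2 ∉ ⋃ x : T, S x := by
    by_contra hc
    push Not at hc
    rw [eq_univ_of_forall hc, mk_univ] at h1
    exact absurd hΩ (not_lt.2 h1)
  obtain ⟨x1, h3, h4⟩ : ∃ x1 ∈ T, x1 ∉ S x2 := by
    by_contra hc
    push Not at hc
    have := mk_le_mk_of_subset (show T ⊆ S x2 from hc)
    rw [hT] at this
    exact absurd (hS x2) (not_lt.2 this)
  exact ⟨x1, x2, fun h => h2 (mem_iUnion.2 ⟨⟨x1, h3⟩, h⟩), h4⟩

open Classical in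
noncomputable def F1 (x : Ω) : Fn Ω := fun y p => if y.1 = some x then (p.1 : ℝ) else 0

open Classical in
noncomputable def F2 (x : Ω) : Fn Ω :=
  fun y p => if y.2 = some x ∧ y.1 ≠ some x then (p.2.1 : ℝ) else 0

theorem In_single {x : Ω} {o : Option Ω} : In {x} o ↔ o = some x :=
  ⟨fun ⟨_, h, e⟩ => by rw [e, h], fun h => ⟨x, rfl, h⟩⟩

theorem cut_single {x : Ω} {o : Option Ω} : cut {x} o = some x ↔ o = some x := by
  rw [← In_single, ← In_single, In_cut subset_rfl]

theorem Supp_F1 (x : Ω) : Supp {x} (F1 x) := by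
  classical
  refine ⟨⟨1, fun y p => ?_⟩, fun y => ⟨?_, ?_⟩⟩
  · unfold F1
    split_ifs
    · rw [abs_of_nonneg p.1.2.1]; exact p.1.2.2
    · simp
  · funext p
    have := cut_single (x := x) (o := y.1)
    by_cases h : y.1 = some x
    · simp only [F1, res, if_pos h, if_pos (this.2 h)]
    · simp only [F1, res, if_neg h, if_neg (fun a => h (this.1 a))]
  · by_cases h : y.1 = some x
    · have : F1 x y = fun p => (p.1 : ℝ) := by funext p; simp only [F1, if_pos h]
      rw [this]; exact A_a1 (In_single.2 h)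
    · have : F1 x y = fun _ => 0 := by funext p; simp only [F1, if_neg h]
      rw [this]; exact A_const _ _ 0

theorem Supp_F2 (x : Ω) : Supp {x} (F2 x) := by
  classical
  refine ⟨⟨1, fun y p => ?_⟩, fun y => ⟨?_, ?_⟩⟩
  · unfold F2
    split_ifs
    · rw [abs_of_nonneg p.2.1.2.1]; exact p.2.1.2.2
    · simp
  · funext p
    have : (cut {x} y.2 = some x ∧ cut {x} y.1 ≠ some x) ↔ (y.2 = some x ∧ y.1 ≠ some x) :=
      and_congr cut_single (not_congr cut_single)
    by_cases h : y.2 = some x ∧ y.1 ≠ some x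
    · simp only [F2, res, if_pos h, if_pos (this.2 h)]
    · simp only [F2, res, if_neg h, if_neg (fun a => h (this.1 a))]
  · by_cases h : y.2 = some x ∧ y.1 ≠ some x
    · have : F2 x y = fun p => (p.2.1 : ℝ) := by funext p; simp only [F2, if_pos h]
      rw [this]; exact A_a2 (fun a => h.2 (In_single.1 a)) (In_single.2 h.1)
    · have : F2 x y = fun _ => 0 := by funext p; simp only [F2, if_neg h]
      rw [this]; exact A_const _ _ 0

variable [hκ : Fact (ℵ₀ ≤ κ)]

theorem van_sup {y : Pt Ω} {p : Y} {a b : DD κ Ω} (ha : van y p a) (hb : van y p b) :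
    van y p (a ⊔ b) := by
  obtain ⟨_, F, _, _, ea⟩ := a.2
  obtain ⟨_, G, _, _, eb⟩ := b.2
  rw [van_iff (DD.sup_val ea eb), (van_iff ea).1 ha, (van_iff eb).1 hb]
  simp

theorem van_inf {y : Pt Ω} {p : Y} {a b : DD κ Ω} (h : van y p (a ⊓ b)) :
    van y p a ∨ van y p b := by
  obtain ⟨_, F, _, _, ea⟩ := a.2
  obtain ⟨_, G, _, _, eb⟩ := b.2
  rw [van_iff (DD.inf_val ea eb)] at h
  rw [van_iff ea, van_iff eb]
  rcases min_choice |F y p| |G y p| with e | e <;> rw [e] at h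
  · exact Or.inl (abs_eq_zero.1 h)
  · exact Or.inr (abs_eq_zero.1 h)

theorem single_small (x : Ω) : #({x} : Set Ω) < κ := by
  simpa using one_lt_aleph0.trans_le hκ.out

theorem nonrep (hreg : κ.IsRegular) (hω : ℵ₀ < κ) (hΩ : κ < #Ω) : ¬ InCu (DD κ Ω) := by
  rintro ⟨H, _, _, _, -, ⟨e, e0, he⟩, ⟨ι⟩⟩
  have esm : #(∅ : Set Ω) < κ := by simpa using hreg.pos
  let δ : H → DD κ Ω := fun h => ι.symm ⟨pid h, isFG_pid h⟩
  have δle : ∀ h k, δ h ≤ δ k ↔ h ∈ pid k := by
    intro h k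
    simp only [δ, OrderIso.le_iff_le]
    exact pid_le_pid
  have δsurj : ∀ d, ∃ h, 0 ≤ h ∧ δ h = d := by
    intro d
    obtain ⟨g, g0, hg⟩ := (ι d).2.eq_pid
    refine ⟨g, g0, ?_⟩
    simp only [δ]
    rw [OrderIso.symm_apply_eq]
    exact Subtype.ext hg.symm
  have δadd : ∀ h k, δ (h + k) ≤ δ h ⊔ δ k := by
    intro h k
    obtain ⟨m, _, hm⟩ := δsurj (δ h ⊔ δ k)
    rw [← hm, δle]
    refine (pid m).add_mem ?_ ?_
    · rw [← δle, hm]; exact le_sup_left
    · rw [← δle, hm]; exact le_sup_right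
  have van0 : ∀ y p, van y p (δ 0) := by
    intro y p
    let z : DD κ Ω := ⟨_, ∅, _, esm, Supp_const ∅ 0, rfl⟩
    obtain ⟨m, _, hm⟩ := δsurj z
    have : van y p z := (van_iff rfl).2 rfl
    refine this.mono ?_
    rw [← hm, δle]; exact (pid m).zero_mem
  let one : DD κ Ω := ⟨_, ∅, _, esm, Supp_const ∅ 1, rfl⟩
  have one_top : ∀ d : DD κ Ω, d ≤ one := by
    intro d
    obtain ⟨_, F, _, ⟨⟨C, hC⟩, _⟩, ed⟩ := d.2
    rw [DD.le_iff (b := one) ed rfl]
    obtain ⟨n, hn⟩ := exists_nat_gt C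
    exact ⟨n, fun y p => by simpa using (hC y p).trans hn.le⟩
  have mem_e : ∀ h, h ∈ pid e := fun h => by
    obtain ⟨n, _, hn⟩ := he |h|
    exact ⟨n, by rwa [abs_of_nonneg e0]⟩
  let pos : Pt Ω → Y → H → Prop := fun y p h => ¬ van y p (δ h⁺)
  have pmono : ∀ y p h k, h ≤ k → pos y p h → pos y p k := by
    intro y p h k hk h1 h2
    refine h1 (h2.mono ((δle _ _).2 (mem_pid_of_abs_le (self_mem_pid _) ?_)))
    rw [abs_of_nonneg (posPart_nonneg _), abs_of_nonneg (posPart_nonneg _)]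
    exact posPart_mono hk
  have pe : ∀ y p, pos y p e := by
    intro y p h
    rw [posPart_eq_self.2 e0] at h
    obtain ⟨m, _, hm⟩ := δsurj one
    have h1 : van y p one := h.mono (by rw [← hm, δle]; exact mem_e m)
    have := (van_iff (d := one) rfl).1 h1
    exact one_ne_zero this
  have pneg : ∀ y p h, 0 ≤ h → ¬ pos y p (-h) := by
    intro y p h h0 hp
    apply hp
    rw [posPart_eq_zero.2 (neg_nonpos.2 h0)]
    exact van0 y p
  have hφ : ∀ y p, ∃ φ : H →+ ℝ, φ e = 1 ∧ (∀ h, pos y p h → 0 ≤ φ h) ∧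
      ∀ h, 0 < φ h → pos y p h := by
    intro y p
    refine exists_stdPart (pos y p) e ?_ ?_ (pe y p) ?_
    · intro h h1 h2
      obtain ⟨m, _, hm⟩ := δsurj (δ h⁺ ⊓ δ (-h)⁺)
      have m0 : m = 0 := by
        apply eq_zero_of_mem_pid (h := h)
        · rw [← δle, hm]; exact inf_le_left
        · rw [← δle, hm]; exact inf_le_right
      have := van0 y p
      rw [← m0, hm] at this
      exact (van_inf this).elim h1 h2
    · intro h k hp
      by_contra hc
      push Not at hc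
      apply hp
      have h1 := van_sup (not_not.1 hc.1) (not_not.1 hc.2)
      refine (h1.mono (δadd _ _)).mono ((δle _ _).2 (mem_pid_of_abs_le (self_mem_pid _) ?_))
      rw [abs_of_nonneg (posPart_nonneg _),
        abs_of_nonneg (add_nonneg (posPart_nonneg _) (posPart_nonneg _))]
      exact sup_le (add_le_add (le_posPart h) (le_posPart k))
        (add_nonneg (posPart_nonneg _) (posPart_nonneg _))
    · intro h
      obtain ⟨n, _, hn⟩ := he h
      refine ⟨n + 1, pmono y p e _ ?_ (pe y p)⟩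
      rw [succ_nsmul, le_sub_iff_add_le, add_comm]
      exact add_le_add hn le_rfl
  choose φ φe φ1 φ2 using hφ
  have φnn : ∀ y p h, 0 ≤ h → 0 ≤ φ y p h := by
    intro y p h h0
    by_contra hc
    exact pneg y p h h0 (φ2 y p _ (by rw [map_neg]; linarith))
  have φvan : ∀ y p h, 0 ≤ h → van y p (δ h) → φ y p h = 0 := by
    intro y p h h0 hv
    refine le_antisymm (not_lt.1 fun hc => φ2 y p h hc ?_) (φnn y p h h0)
    rwa [posPart_eq_self.2 h0]
  have popen : ∀ y h, IsOpen {p | pos y p h} := by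
    intro y h
    obtain ⟨S, F, _, hF, ed⟩ := (δ h⁺).2
    have : {p | pos y p h} = {p | F y p ≠ 0} := by
      ext p; simp only [pos, mem_ofPred_eq, van_iff ed]
    rw [this]
    exact isOpen_ne_fun (hF.2 y).2.cont continuous_const
  have φlow : ∀ y h (r : ℝ), IsOpen {p | r < φ y p h} := by
    intro y h r
    rw [isOpen_iff_mem_nhds]
    intro p hp
    obtain ⟨q, hq1, hq2⟩ := exists_rat_btwn (show r < φ y p h from hp)
    have hq : (q : ℝ) = (q.num : ℝ) / (q.den : ℝ) := by exact_mod_cast (Rat.num_div_den q).symm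
    have a2 : (0 : ℝ) < q.den := by exact_mod_cast q.pos
    rw [hq] at hq1 hq2
    have b1 : pos y p (q.den • h - q.num • e) := φ2 y p _ (by
      rw [div_lt_iff₀ a2] at hq2
      simp [φe]; linarith)
    filter_upwards [(popen y _).mem_nhds b1] with p' hp'
    have := φ1 y p' _ hp'
    simp [φe] at this
    refine hq1.trans_le ?_
    rw [div_le_iff₀ a2]; linarith
  have φcont : ∀ y h, Continuous fun p => φ y p h := by
    intro y h
    refine continuous_iff_lower_upperSemicontinuous.2 ⟨?_, ?_⟩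
    · exact lowerSemicontinuous_iff_isOpen_preimage.2 fun r => φlow y h r
    · refine upperSemicontinuous_iff_isOpen_preimage.2 fun r => ?_
      convert φlow y (-h) (-r) using 1
      ext p; simp
  -- a function that equals one at a point gives a positive value
  have φpos : ∀ y p (S : Set Ω) (F : Fn Ω) (h : H), #S < κ → Supp S F → 0 ≤ h → (δ h).1 = cls F →
      F y p = 1 → 0 < φ y p h := by
    intro y p S F h hS hF h0 eh hp
    let d : DD κ Ω := ⟨_, S, _, hS, (Supp_const S 1).add hF.neg, rfl⟩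
    obtain ⟨k, k0, hk⟩ := δsurj d
    have k1 : φ y p k = 0 := φvan y p k k0 (by
      rw [hk, van_iff (d := d) rfl]; simp [hp])
    have h1 : one ≤ d ⊔ δ h := by
      rw [DD.le_iff (a := one) rfl (DD.sup_val (a := d) rfl eh)]
      refine ⟨2, fun y p => ?_⟩
      have a1 := le_max_left |1 + -F y p| |F y p|
      have a2 := le_max_right |1 + -F y p| |F y p|
      have a3 := le_abs_self (1 + -F y p)
      have a4 := le_abs_self (F y p)
      have a5 := le_abs_self (max |1 + -F y p| |F y p|)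
      simp only [abs_one]
      push_cast
      linarith
    have h2 : d ⊔ δ h ≤ δ (k + h) := by
      refine sup_le ?_ ?_
      · rw [← hk, δle]
        refine mem_pid_of_abs_le (self_mem_pid _) ?_
        rw [abs_of_nonneg k0, abs_of_nonneg (add_nonneg k0 h0)]
        exact le_add_of_nonneg_right h0
      · rw [δle]
        refine mem_pid_of_abs_le (self_mem_pid _) ?_
        rw [abs_of_nonneg h0, abs_of_nonneg (add_nonneg k0 h0)]
        exact le_add_of_nonneg_left k0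
    obtain ⟨n, hn⟩ := (δle _ _).1 ((one_top (δ e)).trans (h1.trans h2))
    rw [abs_of_nonneg e0, abs_of_nonneg (add_nonneg k0 h0)] at hn
    have h3 := φnn y p _ (sub_nonneg.2 hn)
    simp only [map_sub, map_nsmul, map_add, φe, k1, nsmul_eq_mul, zero_add] at h3
    by_contra hc
    have : (n : ℝ) * φ y p h ≤ 0 := mul_nonpos_of_nonneg_of_nonpos n.cast_nonneg (not_lt.1 hc)
    linarith
  -- supports
  have hsupp : ∀ h : H, ∃ S : Set Ω, #S < κ ∧ ∀ (m : ℤ) (n : ℕ), ∃ F, Supp S F ∧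
      (δ (n • h - m • e)⁺).1 = cls F := by
    intro h
    choose S F hS hF eF using fun j : ULift.{u} (ℤ × ℕ) => (δ (j.down.2 • h - j.down.1 • e)⁺).2
    refine ⟨⋃ j, S j, (card_iUnion_lt_iff_forall_of_isRegular hreg ?_).2 hS, fun m n => ?_⟩
    · exact lt_of_le_of_lt mk_le_aleph0 hω
    · obtain ⟨F', f1, f2⟩ := (hF ⟨(m, n)⟩).lift' (subset_iUnion S _)
      exact ⟨F', f1, (eF ⟨(m, n)⟩).trans f2⟩
  choose T hT hTF using hsupp
  choose h1 h10 eh1 using fun x : Ω =>
    δsurj ⟨_, {x}, F1 x, single_small x, Supp_F1 x, rfl⟩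
  choose h2 h20 eh2 using fun x : Ω =>
    δsurj ⟨_, {x}, F2 x, single_small x, Supp_F2 x, rfl⟩
  obtain ⟨x1, x2, n1, n2⟩ := free_pair hκ.out hΩ (fun x => (T (h1 x) ∪ T (h2 x)) ∪ {x})
    (fun x => union_small (union_small (hT _) (hT _)) (single_small x))
  simp only [mem_union, mem_singleton_iff, not_or] at n1 n2
  let y : Pt Ω := (some x1, some x2)
  have dep1 : ∀ p q : Y, p.1 = q.1 → φ y p (h1 x1) ≤ φ y q (h1 x1) := by
    intro p q hpq
    refine stdPart_le (φe y q) (φe y p) (φ1 y q) (φ2 y p) _ fun m n hp => ?_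
    obtain ⟨F, f1, f2⟩ := hTF (h1 x1) m n
    have := (f1.2 y).2.dep1 (fun a => n1.1.1 (In_some.1 a)) p q hpq
    simp only [pos, van_iff f2] at hp ⊢
    rwa [← this]
  have dep2 : ∀ p q : Y, p.2.1 = q.2.1 → φ y p (h2 x2) ≤ φ y q (h2 x2) := by
    intro p q hpq
    refine stdPart_le (φe y q) (φe y p) (φ1 y q) (φ2 y p) _ fun m n hp => ?_
    obtain ⟨F, f1, f2⟩ := hTF (h2 x2) m n
    have := (f1.2 y).2.dep2 (fun a => n2.1.2 (In_some.1 a)) p q hpq
    simp only [pos, van_iff f2] at hp ⊢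
    rwa [← this]
  let g1 : I → ℝ := fun a => φ y (a, 0, 0) (h1 x1)
  let g2 : I → ℝ := fun a => φ y (0, a, 0) (h2 x2)
  have eg1 : ∀ p : Y, φ y p (h1 x1) = g1 p.1 := fun p => le_antisymm (dep1 _ _ rfl) (dep1 _ _ rfl)
  have eg2 : ∀ p : Y, φ y p (h2 x2) = g2 p.2.1 := fun p => le_antisymm (dep2 _ _ rfl) (dep2 _ _ rfl)
  have v1 : (δ (h1 x1)).1 = cls (F1 x1) := by rw [eh1]
  have v2 : (δ (h2 x2)).1 = cls (F2 x2) := by rw [eh2]
  have w1 : ∀ p : Y, F1 x1 y p = p.1 := fun p => by simp [F1, y]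
  have w2 : ∀ p : Y, F2 x2 y p = p.2.1 := fun p => by simp [F2, y, n2.2]
  have z1 : g1 0 = 0 := φvan _ _ _ (h10 x1) ((van_iff v1).2 (by rw [w1]; rfl))
  have z2 : g2 0 = 0 := φvan _ _ _ (h20 x2) ((van_iff v2).2 (by rw [w2]; rfl))
  have o1 : 0 < g1 1 := φpos _ _ _ _ _ (single_small x1) (Supp_F1 x1) (h10 x1) v1 (by rw [w1]; rfl)
  have o2 : 0 < g2 1 := φpos _ _ _ _ _ (single_small x2) (Supp_F2 x2) (h20 x2) v2 (by rw [w2]; rfl)
  obtain ⟨q, hq1, hq2⟩ := exists_rat_btwn (lt_min o1 o2)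
  have hq : (q : ℝ) = (q.num : ℝ) / (q.den : ℝ) := by exact_mod_cast (Rat.num_div_den q).symm
  have a2 : (0 : ℝ) < q.den := by exact_mod_cast q.pos
  obtain ⟨S, F, hS, hF, eF⟩ := (δ (q.den • (h1 x1 + h2 x2) - q.num • e)⁺).2
  obtain ⟨F', f1, f2⟩ := hF.lift' (subset_union_left (t := {x1, x2}))
  have fB : B (F' y) := (f1.2 y).2.1 (In_some.2 (Or.inr (Or.inl rfl))) (In_some.2 (Or.inr (Or.inr rfl)))
  have eF' := eF.trans f2
  refine fiber_contra g1 g2 ((φcont y _).comp (by fun_prop)) ((φcont y _).comp (by fun_prop)) z1 z2 q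
    hq1 (hq2.trans_le (min_le_left _ _)) (hq2.trans_le (min_le_right _ _)) (F' y) fB ?_ ?_
  · intro p hp
    have := φ2 y p (q.den • (h1 x1 + h2 x2) - q.num • e) (by
      rw [hq, div_lt_iff₀ a2] at hp
      simp only [map_sub, map_nsmul, map_zsmul, map_add, φe, eg1, eg2, nsmul_eq_mul, zsmul_eq_mul]
      linarith)
    simpa only [pos, van_iff eF'] using this
  · intro p hp
    by_contra hc
    have := φ1 y p (q.den • (h1 x1 + h2 x2) - q.num • e) (by simpa only [pos, van_iff eF'] using hc)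
    rw [hq, lt_div_iff₀ a2] at hp
    simp only [map_sub, map_nsmul, map_zsmul, map_add, φe, eg1, eg2, nsmul_eq_mul, zsmul_eq_mul]
      at this
    linarith

end

end Pool.Agent.H22Z.IdC
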