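import Pool.Agent.H22Z.IdC.Cond
import Pool.Agent.H22Z.IdC.LGroup

set_option autoImplicit false

universe u

open Cardinal Set

namespace Pool.Agent.H22Z.IdC

section
variable {Ω : Type u} [LinearOrder Ω]

def lt2 (y : Pt Ω) : Prop := ∃ x1 x2, y.1 = some x1 ∧ y.2 = some x2 ∧ x2 < x1

open Classical in
noncomputable def W (S : Set Ω) (y : Pt Ω) (p : Y) : ℝ :=
  if ¬ (In S y.1 ∧ In S y.2) ∧ lt2 y then wt p else 1

theorem W_ge (S : Set Ω) (y : Pt Ω) (p : Y) : 1 ≤ W S y p := ite_wt_ge _ p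
theorem W_le (S : Set Ω) (y : Pt Ω) (p : Y) : W S y p ≤ 2 := ite_wt_le _ p

def GS (S : Set Ω) (F : Fn Ω) : Prop := ∃ F₀, Supp S F₀ ∧ ∀ y p, F y p = W S y p * F₀ y p

theorem GS.up {S S' : Set Ω} (hS : S ⊆ S') (hl : IsLowerSet S) {F : Fn Ω} (h : GS S F) :
    GS S' F := by
  classical
  obtain ⟨F₀, h0, h1⟩ := h
  refine ⟨_, h0.up hS (fun y => ¬ (In S y.1 ∧ In S y.2) ∧ lt2 y) ?_ ?_, fun y p => ?_⟩
  · rintro y _ _ a ⟨b, x1, x2, e1, e2, hlt⟩
    apply b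
    refine ⟨a, ?_⟩
    rw [e1, In_some] at a
    rw [e2, In_some]
    exact hl hlt.le a
  · rintro y ⟨x1, _, e1⟩ _ a ⟨x2, b, e2⟩
    refine ⟨fun h => a h.1, x1, x2, e1, e2, ?_⟩
    by_contra hc
    apply a
    rw [e1, In_some]
    exact hl (not_lt.1 hc) b
  · rw [h1, ← mul_assoc]
    congr 1
    unfold W
    by_cases c : In S' y.1 ∧ In S' y.2
    · simp only [c, and_self, not_true, false_and, if_false, true_and, one_mul]
    · have c' : ¬ (In S y.1 ∧ In S y.2) := fun h => c ⟨h.1.mono hS, h.2.mono hS⟩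
      have c2 : ¬ (In S' y.1 ∧ In S' y.2 ∧ ¬ (In S y.1 ∧ In S y.2) ∧ lt2 y) :=
        fun h => c ⟨h.1, h.2.1⟩
      rw [if_neg c2]
      simp only [c, c', not_false_iff, true_and, mul_one]

variable {κ : Cardinal.{u}} [hκ : Fact (ℵ₀ ≤ κ)]

def InG (κ : Cardinal.{u}) (F : Fn Ω) : Prop := ∃ S : Set Ω, #S < κ ∧ IsLowerSet S ∧ GS S F

theorem InG.common {F G : Fn Ω} (hF : InG κ F) (hG : InG κ G) :
    ∃ (S : Set Ω) (F₀ G₀ : Fn Ω), #S < κ ∧ IsLowerSet S ∧ Supp S F₀ ∧ Supp S G₀ ∧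
      (∀ y p, F y p = W S y p * F₀ y p) ∧ ∀ y p, G y p = W S y p * G₀ y p := by
  obtain ⟨S, s1, s2, s3⟩ := hF
  obtain ⟨T, t1, t2, t3⟩ := hG
  obtain ⟨F₀, f1, f2⟩ := s3.up (subset_union_left (t := T)) s2
  obtain ⟨G₀, g1, g2⟩ := t3.up (subset_union_right (s := S)) t2
  exact ⟨S ∪ T, F₀, G₀, union_small s1 t1, s2.union t2, f1, g1, f2, g2⟩

theorem empty_small : #(∅ : Set Ω) < κ := by
  simpa using lt_of_lt_of_le aleph0_pos hκ.out

/-- the l-group -/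
def GG (κ : Cardinal.{u}) [Fact (ℵ₀ ≤ κ)] (Ω : Type u) [LinearOrder Ω] : AddSubgroup (Fn Ω) where
  carrier := {F | InG κ F}
  zero_mem' := ⟨∅, empty_small, isLowerSet_empty, _, Supp_const ∅ 0, fun y p => by simp⟩
  add_mem' := by
    intro F G hF hG
    obtain ⟨S, F₀, G₀, s1, s2, f1, g1, f2, g2⟩ := InG.common hF hG
    exact ⟨S, s1, s2, _, f1.add g1, fun y p => by simp only [Pi.add_apply, f2, g2]; ring⟩
  neg_mem' := by
    rintro F ⟨S, s1, s2, F₀, f1, f2⟩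
    exact ⟨S, s1, s2, _, f1.neg, fun y p => by simp only [Pi.neg_apply, f2]; ring⟩

theorem GG_sup {F G : Fn Ω} (hF : F ∈ GG κ Ω) (hG : G ∈ GG κ Ω) : F ⊔ G ∈ GG κ Ω := by
  obtain ⟨S, F₀, G₀, s1, s2, f1, g1, f2, g2⟩ := InG.common hF hG
  refine ⟨S, s1, s2, _, f1.max g1, fun y p => ?_⟩
  simp only [Pi.sup_apply, f2, g2]
  exact (mul_max_of_nonneg _ _ (by linarith [W_ge S y p])).symm

theorem GG_inf {F G : Fn Ω} (hF : F ∈ GG κ Ω) (hG : G ∈ GG κ Ω) : F ⊓ G ∈ GG κ Ω := by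
  obtain ⟨S, F₀, G₀, s1, s2, f1, g1, f2, g2⟩ := InG.common hF hG
  refine ⟨S, s1, s2, _, f1.min g1, fun y p => ?_⟩
  simp only [Pi.inf_apply, f2, g2]
  exact (mul_min_of_nonneg _ _ (by linarith [W_ge S y p])).symm

noncomputable instance : Lattice (GG κ Ω) :=
  Subtype.lattice (P := fun F => F ∈ GG κ Ω) (fun _ _ => GG_sup) (fun _ _ => GG_inf)

instance : IsOrderedAddMonoid (GG κ Ω) where
  add_le_add_left a b h c := fun y p => add_le_add (h y p) le_rfl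

theorem mem_pid_GG {g h : GG κ Ω} : h ∈ pid g ↔ LE h.1 g.1 := by
  rw [mem_pid]
  refine exists_congr fun n => ?_
  have : ∀ y p, ((n • |g| : GG κ Ω) : Fn Ω) y p = n * |g.1 y p| := by
    intro y p
    rw [AddSubgroup.coe_nsmul]
    simp only [Pi.smul_apply, nsmul_eq_mul]
    rfl
  constructor
  · intro H y p
    rw [← this]; exact H y p
  · intro H y p
    rw [this]; exact H y p

theorem rep (hreg : κ.IsRegular) (hio : ∀ x : Ω, #(Iio x) < κ) : InCu (DD κ Ω) := by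
  have hA : ∀ d : DD κ Ω, ∃ g : GG κ Ω, d.1 = cls g.1 := by
    intro d
    obtain ⟨S, F, hS, hF, e⟩ := d.2
    have h1 : #(⋃ x : S, Iic (x : Ω)) < κ := by
      refine (card_iUnion_lt_iff_forall_of_isRegular hreg hS).2 fun x => ?_
      rw [← Iio_insert]
      exact mk_insert_le.trans_lt (add_lt_of_lt hκ.out (hio x) (one_lt_aleph0.trans_le hκ.out))
    obtain ⟨F', f1, f2⟩ := hF.lift' (S' := ⋃ x : S, Iic (x : Ω))
      (fun x hx => mem_iUnion.2 ⟨⟨x, hx⟩, self_mem_Iic⟩)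
    refine ⟨⟨fun y p => W _ y p * F' y p, _, h1, isLowerSet_iUnion fun x => isLowerSet_Iic _,
      F', f1, fun _ _ => rfl⟩, ?_⟩
    rw [e, f2]
    exact (cls_mul _ (W_ge _) (W_le _) F').symm
  have hB : ∀ g : GG κ Ω, ∃ d : DD κ Ω, d.1 = cls g.1 := by
    rintro ⟨g, S, s1, _, F₀, f1, f2⟩
    refine ⟨⟨_, S, F₀, s1, f1, rfl⟩, ?_⟩
    have : g = fun y p => W S y p * F₀ y p := by funext y p; exact f2 y p
    simp only [this]
    exact (cls_mul _ (W_ge _) (W_le _) F₀).symm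
  choose γ hγ using hA
  refine ⟨GG κ Ω, inferInstance, inferInstance, inferInstance, ?_, ?_, ?_⟩
  · intro x z h y p
    by_contra hc
    have hc' : 0 < x.1 y p := not_le.1 hc
    obtain ⟨n, hn⟩ := exists_nat_gt (z.1 y p / x.1 y p)
    have h1 : ((n + 1) • x).1 y p ≤ z.1 y p := h (n + 1) (by omega) y p
    rw [AddSubgroup.coe_nsmul] at h1
    simp only [Pi.smul_apply, nsmul_eq_mul] at h1
    rw [div_lt_iff₀ hc'] at hn
    push_cast at h1
    nlinarith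
  · refine ⟨⟨fun y p => W ∅ y p * 1, ∅, empty_small, isLowerSet_empty, _, Supp_const ∅ 1,
      fun _ _ => rfl⟩, fun y p => ?_, ?_⟩
    · show 0 ≤ W ∅ y p * 1
      linarith [W_ge (∅ : Set Ω) y p]
    · rintro ⟨g, S, s1, s2, F₀, f1, f2⟩
      obtain ⟨C, hC⟩ := f1.1
      obtain ⟨n, hn⟩ := exists_nat_gt (2 * C)
      refine ⟨n + 1, by omega, fun y p => ?_⟩
      rw [AddSubgroup.coe_nsmul]
      simp only [Pi.smul_apply, nsmul_eq_mul, f2]
      push_cast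
      have a1 := W_ge S y p
      have a2 := W_le S y p
      have a3 := W_ge (∅ : Set Ω) y p
      have a4 := hC y p
      have a5 := le_abs_self (F₀ y p)
      have a6 := abs_nonneg (F₀ y p)
      have a7 : (0 : ℝ) ≤ n := n.cast_nonneg
      nlinarith
  · let f : DD κ Ω → Idc (GG κ Ω) := fun d => ⟨pid (γ d), isFG_pid _⟩
    have hf : ∀ a b, f a ≤ f b ↔ a ≤ b := by
      intro a b
      rw [DD.le_iff (hγ a) (hγ b), ← mem_pid_GG, ← pid_le_pid]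
      rfl
    refine ⟨RelIso.ofSurjective (OrderEmbedding.ofMapLEIff f hf) ?_⟩
    rintro ⟨J, hJ⟩
    obtain ⟨g, _, rfl⟩ := hJ.eq_pid
    obtain ⟨d, hd⟩ := hB g
    refine ⟨d, Subtype.ext ?_⟩
    have := cls_eq.1 (hd.symm.trans (hγ d))
    exact le_antisymm (pid_le_pid.2 (mem_pid_GG.2 this.2)) (pid_le_pid.2 (mem_pid_GG.2 this.1))

end

end Pool.Agent.H22Z.IdC
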