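import Pool.Agent.H22Z.IdC.BF
import Pool.Agent.H22Z.IdC.Rep
import Pool.Agent.H22Z.IdC.NonRep

set_option autoImplicit false

universe u

open Cardinal Set

namespace Pool.Agent.H22Z.IdC

theorem not_axiomatizable :
    ¬ ∃ φ : LForm.{u} PEmpty, ∀ (D : Type u) [Lattice D], φ.Sat D PEmpty.elim ↔ InCu D := by
  rintro ⟨φ, hφ⟩
  let κ : Cardinal.{u} := Order.succ (max ℵ₀ φ.qb)
  have hreg : κ.IsRegular := isRegular_succ (le_max_left _ _)
  have hω : ℵ₀ < κ := (le_max_left _ _).trans_lt (Order.lt_succ _)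
  have hq : φ.qb < κ := (le_max_right _ _).trans_lt (Order.lt_succ _)
  have : Fact (ℵ₀ ≤ κ) := ⟨hω.le⟩
  have h0 : InCu (DD κ κ.ord.ToType) := rep hreg fun x => by simpa using mk_Iio_lt x
  have h1 : ¬ InCu (DD κ (Order.succ κ).out) := nonrep hreg hω (by simp)
  apply h1
  rw [← hφ] at h0 ⊢
  exact (equiv_sat hreg (by simp) (by simp [Order.le_succ]) φ hq).1 h0

end Pool.Agent.H22Z.IdC
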